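import Pool.Agent.helper65.GD.Spec

/-! # MP_ea335c, row CO2 -/

set_option autoImplicit false

namespace Pool.Agent.GD

open Finset Metric Filter Topology

lemma CO2_at (f : ℂ → ℂ) (a : ℕ → ℂ) (h : Ser a f) :
    HasFPowerSeriesAt f (FormalMultilinearSeries.ofScalars ℂ a) 0 := by
  rw [hasFPowerSeriesAt_iff]
  filter_upwards [Metric.ball_mem_nhds (0 : ℂ) one_pos] with z hz
  have h1 := h z hz
  rw [zero_add]
  simp only [FormalMultilinearSeries.coeff_ofScalars, smul_eq_mul]
  have e : (fun n => z ^ n * a n) = fun n => a n * z ^ n := by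
    funext n
    ring
  rw [e]
  exact h1

theorem CO2 : CO2_stmt := by
  intro f a b ha hb
  have h1 := (CO2_at f a ha).eq_formalMultilinearSeries (CO2_at f b hb)
  funext n
  have h2 := congrArg (fun p => FormalMultilinearSeries.coeff p n) h1
  simpa only [FormalMultilinearSeries.coeff_ofScalars] using h2

end Pool.Agent.GD
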