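import Pool.Agent.helper65.GD.Spec

/-! # MP_ea335c, row CO3 -/

set_option autoImplicit false

namespace Pool.Agent.GD

open Finset Metric Filter Topology

theorem CO3 : CO3_stmt := by
  intro f g a b ha hb z hz
  have h1 := ha z hz
  have h2 := hb z hz
  have n1 : Summable fun n => ‖a n * z ^ n‖ := summable_norm_iff.2 h1.summable
  have n2 : Summable fun n => ‖b n * z ^ n‖ := summable_norm_iff.2 h2.summable
  have e : (fun n => (∑ m ∈ range (n + 1), a m * b (n - m)) * z ^ n) =
      fun n => ∑ m ∈ range (n + 1), (a m * z ^ m) * (b (n - m) * z ^ (n - m)) := by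
    funext n
    rw [Finset.sum_mul]
    apply Finset.sum_congr rfl
    intro m hm
    rw [Finset.mem_range] at hm
    have h3 : z ^ n = z ^ m * z ^ (n - m) := by
      rw [← pow_add, Nat.add_sub_cancel' (by omega)]
    rw [h3]
    ring
  show HasSum (fun n => (∑ m ∈ range (n + 1), a m * b (n - m)) * z ^ n) (f z * g z)
  rw [e, ← h1.tsum_eq, ← h2.tsum_eq,
    tsum_mul_tsum_eq_tsum_sum_range_of_summable_norm n1 n2]
  exact (summable_norm_sum_mul_range_of_summable_norm n1 n2).of_norm.hasSum

end Pool.Agent.GD
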