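import Pool.Agent.helper65.GD.Spec

/-! # MP_ea335c, row CTN -/

set_option autoImplicit false

namespace Pool.Agent.GD

open Finset Metric Filter Topology

theorem CTN : CTN_stmt := by
  intro s μ G ν K hν hG hK k
  induction k using Nat.strong_induction_on with
  | _ k ih =>
    rcases Nat.eq_zero_or_pos k with h0 | hk
    · subst h0
      rw [hG.1]
      have e : (fun t => K t 0) = fun _ => (1 : ℂ) := by
        funext t
        exact (hK t).1
      rw [e]
      exact tendsto_const_nhds
    · have hk0 : (k : ℂ) ≠ 0 := Nat.cast_ne_zero.2 (by omega)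
      have e1 : G k = (s * ∑ m ∈ range k, μ (k - m) * G m) / k := by
        rw [← hG.2 k, mul_div_cancel_left₀ _ hk0]
      have e2 : (fun t => K t k) = fun t => (s * ∑ m ∈ range k, ν t (k - m) * K t m) / k := by
        funext t
        rw [← (hK t).2 k, mul_div_cancel_left₀ _ hk0]
      rw [e1, e2]
      apply Tendsto.div_const
      apply Tendsto.const_mul
      apply tendsto_finsetSum
      intro m hm
      exact (hν (k - m)).mul (ih m (Finset.mem_range.1 hm))

end Pool.Agent.GD
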