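import Pool.Agent.helper65.GD.Spec

/-! # MP_ea335c, row EGM -/

set_option autoImplicit false

namespace Pool.Agent.GD

open Finset Metric Filter Topology

theorem EGM : EGM_stmt := by
  intro s N w x G k hA hG
  have hw : ∑ l, (w l : ℂ) = 1 := by
    rw [← Complex.ofReal_sum, hA.2.1, Complex.ofReal_one]
  have h1 : ∑ l, (w l : ℂ) * pol G k (x l) =
      G k + 2 * ∑ m ∈ range k, mom w x (k - m) * G m := by
    unfold pol mom
    simp only [mul_add]
    rw [Finset.sum_add_distrib, ← Finset.sum_mul, hw, one_mul]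
    congr 1
    have e : ∀ l : Fin N, (w l : ℂ) * (2 * ∑ m ∈ range k, x l ^ (k - m) * G m) =
        ∑ m ∈ range k, 2 * ((w l : ℂ) * x l ^ (k - m) * G m) := by
      intro l
      rw [Finset.mul_sum, Finset.mul_sum]
      apply Finset.sum_congr rfl
      intro m _
      ring
    rw [Finset.sum_congr rfl (fun l _ => e l), Finset.sum_comm, Finset.mul_sum]
    apply Finset.sum_congr rfl
    intro m _
    rw [Finset.sum_mul, Finset.mul_sum]
  rw [h1, mul_add]
  have h2 := hG.2 k
  linear_combination (-2 : ℂ) * h2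

end Pool.Agent.GD
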