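import Pool.Agent.helper65.GD.Spec

/-! # MP_ea335c, row EXR -/

set_option autoImplicit false

namespace Pool.Agent.GD

open Finset Metric Filter Topology

noncomputable def EXR_G (s : ℂ) (μ : ℕ → ℂ) : ℕ → ℂ
  | 0 => 1
  | n + 1 => (s * ∑ m : Fin (n + 1), μ (n + 1 - m) * EXR_G s μ m) / ((n : ℂ) + 1)
decreasing_by exact m.2

theorem EXR : EXR_stmt := by
  intro s μ
  refine ⟨EXR_G s μ, ?_, ?_⟩
  · rw [EXR_G]
  · intro k
    cases k with
    | zero => simp
    | succ n =>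
      have h1 : ((n : ℂ) + 1) ≠ 0 := Nat.cast_add_one_ne_zero n
      rw [EXR_G, Finset.sum_range, Nat.cast_add, Nat.cast_one, mul_div_cancel₀ _ h1]

end Pool.Agent.GD
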