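import Pool.Agent.helper65.GD.SpecC

/-! # MP_ea335c, row FIZ -/

set_option autoImplicit false

namespace Pool.Agent.GD

open Finset Metric Filter Topology

theorem FIZ (hSTS : STS_stmt) (hAPX : APX_stmt) (hGLI : GLI_stmt) : FIZ_stmt := by
  intro f p n hf hpn
  obtain ⟨c, b, μ, G, P, hb, hpos, hG, hμ0, hser, hre, hcoef⟩ := hSTS f p hf
  have happ : Approx μ := hAPX P μ hμ0 hser hre
  obtain ⟨k, rfl⟩ : ∃ k, n = p + k := ⟨n - p, by omega⟩
  have h1 := hGLI p k μ b (fun n => ∑ m ∈ range (n + 1), b m * G (n - m)) G hf.one_le (by omega)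
    happ hb hpos hG (fun _ => rfl)
  have hbound : N2b689f5b.goodmanBound f p (p + k) =
      ∑ j ∈ Icc 1 p, AA p (p + k) j * ‖N2b689f5b.coeff f j‖ := rfl
  rw [hbound]
  have h2 := mul_le_mul_of_nonneg_left h1 (norm_nonneg c)
  rw [Finset.mul_sum] at h2
  rw [hcoef (p + k), norm_mul]
  refine h2.trans (le_of_eq ?_)
  apply Finset.sum_congr rfl
  intro j _
  rw [hcoef j, norm_mul]
  ring

end Pool.Agent.GD
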