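import Pool.Agent.helper65.GD.SpecC

/-! # MP_ea335c, row GAT -/

set_option autoImplicit false

namespace Pool.Agent.GD

open Finset Metric Filter Topology

theorem GAT (hSTA : STA_stmt) (hKEZ : KEZ_stmt) (hNUM : NUM_stmt) : GAT_stmt := by
  intro p k N w x b f G H hp hk hat hb hpos hG hH hf
  obtain ⟨v, hv0, hv1, hform⟩ := hSTA p k N w x b f G H hp hk hat hb hpos hG hH hf
  have hatv : Atomic N v x := ⟨hv0, hv1, hat.2.2⟩
  have hp0 : (0 : ℝ) < p := by exact_mod_cast hp
  have hk0 : (0 : ℝ) < k := by exact_mod_cast hk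
  have hn0 : (0 : ℝ) < (p : ℝ) + k := by positivity
  set E := ∑ l, (v l : ℂ) * pol G k (x l) with hE
  have hterm : ∀ j ∈ Icc 1 p, ‖(j : ℂ) *
      ((al p k (p - j) G H + om p k G E * H (p - j)) * f j -
        (be p k (p - j) G H - om p k G E * (starRingEnd ℂ) (H (p - j))) * (starRingEnd ℂ) (f j))‖ ≤
      ((p : ℝ) + k) * (AA p (p + k) j * ‖f j‖) := by
    intro j hj
    have hj1 : 1 ≤ j := (Finset.mem_Icc.mp hj).1
    have hjp : j ≤ p := (Finset.mem_Icc.mp hj).2
    obtain ⟨i, hi⟩ : ∃ i, i = p - j := ⟨_, rfl⟩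
    have hji : j = p - i := by omega
    have hip : i < p := by omega
    have hi' : (i : ℝ) < p := by exact_mod_cast hip
    have hi0 : (0 : ℝ) ≤ i := Nat.cast_nonneg _
    have hjr : (j : ℝ) = p - i := by rw [hji, Nat.cast_sub hip.le]
    rw [← hi]
    obtain ⟨h1, h2⟩ := hKEZ p k i N w v x G H hp hk hip hat hatv hG hH
    rw [← hE] at h1 h2
    obtain ⟨h3, h4⟩ := hNUM p k i hp hk hip
    rw [← hji] at h3 h4
    set a := al p k i G H + om p k G E * H i with ha
    set b' := be p k i G H - om p k G E * (starRingEnd ℂ) (H i) with hb'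
    set Q := cc (2 * p) k * (2 * p).choose i with hQ
    have hA0 : (0 : ℝ) < k + i := by positivity
    have hB0 : (0 : ℝ) < 2 * p + k - i := by linarith
    have e1 : ‖(2 : ℂ) * ((k : ℂ) + i)‖ = 2 * ((k : ℝ) + i) := by
      have : (2 : ℂ) * ((k : ℂ) + i) = ((2 * ((k : ℝ) + i) : ℝ) : ℂ) := by push_cast; ring
      rw [this, Complex.norm_real, Real.norm_of_nonneg (by positivity)]
    have e2 : ‖(2 : ℂ) * (2 * (p : ℂ) + k - i)‖ = 2 * (2 * (p : ℝ) + k - i) := by
      have : (2 : ℂ) * (2 * (p : ℂ) + k - i) = ((2 * (2 * (p : ℝ) + k - i) : ℝ) : ℂ) := by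
        push_cast; ring
      rw [this, Complex.norm_real, Real.norm_of_nonneg (by positivity)]
    rw [norm_mul, e1] at h1
    rw [norm_mul, e2] at h2
    -- j ‖a‖ ≤ (2p+k-i)/2 AA
    have h5 : (j : ℝ) * ‖a‖ ≤ (2 * p + k - i) / 2 * AA p (p + k) j := by
      have h6 : ‖a‖ ≤ (k : ℝ) * (2 * p + k) / p * Q / (2 * (k + i)) := by
        rw [le_div_iff₀ (by positivity)]
        linarith
      have h7 : (j : ℝ) * ((k : ℝ) * (2 * p + k) / p * Q / (2 * (k + i))) =
          (p + k) * ((k : ℝ) * (2 * p + k) * (p - i) / ((p + k) * p) * Q / (2 * (k + i))) := by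
        rw [hjr]
        field_simp
      calc (j : ℝ) * ‖a‖ ≤ j * ((k : ℝ) * (2 * p + k) / p * Q / (2 * (k + i))) := by gcongr
        _ = (p + k) * ((2 * p + k - i) / (2 * (p + k)) * AA p (p + k) j) := by rw [h7, h3]
        _ = (2 * p + k - i) / 2 * AA p (p + k) j := by field_simp
    have h8 : (j : ℝ) * ‖b'‖ ≤ (k + i) / 2 * AA p (p + k) j := by
      have h6 : ‖b'‖ ≤ (k : ℝ) * (2 * p + k) / p * Q / (2 * (2 * p + k - i)) := by
        rw [le_div_iff₀ (by positivity)]
        linarith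
      have h7 : (j : ℝ) * ((k : ℝ) * (2 * p + k) / p * Q / (2 * (2 * p + k - i))) =
          (p + k) * ((k : ℝ) * (2 * p + k) * (p - i) / ((p + k) * p) * Q / (2 * (2 * p + k - i))) := by
        rw [hjr]
        field_simp
      calc (j : ℝ) * ‖b'‖ ≤ j * ((k : ℝ) * (2 * p + k) / p * Q / (2 * (2 * p + k - i))) := by gcongr
        _ = (p + k) * (((k : ℝ) + i) / (2 * (p + k)) * AA p (p + k) j) := by rw [h7, h4]
        _ = (k + i) / 2 * AA p (p + k) j := by field_simp
    calc ‖(j : ℂ) * (a * f j - b' * (starRingEnd ℂ) (f j))‖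
        = j * ‖a * f j - b' * (starRingEnd ℂ) (f j)‖ := by
          rw [norm_mul, Complex.norm_natCast]
      _ ≤ j * (‖a‖ * ‖f j‖ + ‖b'‖ * ‖f j‖) := by
          gcongr
          refine (norm_sub_le _ _).trans ?_
          rw [norm_mul, norm_mul, Complex.norm_conj]
      _ = (j * ‖a‖ + j * ‖b'‖) * ‖f j‖ := by ring
      _ ≤ ((2 * p + k - i) / 2 * AA p (p + k) j + (k + i) / 2 * AA p (p + k) j) * ‖f j‖ := by
          gcongr
      _ = ((p : ℝ) + k) * (AA p (p + k) j * ‖f j‖) := by ring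
  have h9 := norm_sum_le_of_le _ hterm
  rw [← hform, ← Finset.mul_sum, norm_mul] at h9
  have e3 : ‖(p : ℂ) + k‖ = (p : ℝ) + k := by
    have : (p : ℂ) + k = (((p : ℝ) + k : ℝ) : ℂ) := by push_cast; ring
    rw [this, Complex.norm_real, Real.norm_of_nonneg (by positivity)]
  rw [e3] at h9
  exact le_of_mul_le_mul_left h9 hn0

end Pool.Agent.GD
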