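import Pool.Agent.helper65.GD.Spec

/-! # MP_ea335c, row GHI -/

set_option autoImplicit false

namespace Pool.Agent.GD

open Finset Metric Filter Topology

open PowerSeries in
/-- the Euler operator -/
noncomputable def GHI_th (g : PowerSeries ℂ) : PowerSeries ℂ :=
  PowerSeries.mk fun k => (k : ℂ) * PowerSeries.coeff k g

lemma GHI_leib (g h : PowerSeries ℂ) : GHI_th (g * h) = GHI_th g * h + g * GHI_th h := by
  ext n
  unfold GHI_th
  rw [PowerSeries.coeff_mk, map_add, PowerSeries.coeff_mul, PowerSeries.coeff_mul,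
    PowerSeries.coeff_mul, Finset.mul_sum, ← Finset.sum_add_distrib]
  apply Finset.sum_congr rfl
  rintro ⟨a, b⟩ hab
  have h1 : a + b = n := Finset.HasAntidiagonal.mem_antidiagonal.1 hab
  show (n : ℂ) * (PowerSeries.coeff a g * PowerSeries.coeff b h) =
    PowerSeries.coeff a (PowerSeries.mk fun k => (k : ℂ) * PowerSeries.coeff k g) *
      PowerSeries.coeff b h + PowerSeries.coeff a g *
      PowerSeries.coeff b (PowerSeries.mk fun k => (k : ℂ) * PowerSeries.coeff k h)
  rw [PowerSeries.coeff_mk, PowerSeries.coeff_mk, ← h1, Nat.cast_add]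
  ring

lemma GHI_rec (s : ℂ) (μ G : ℕ → ℂ) (hG : Rec s μ G) :
    GHI_th (PowerSeries.mk G) =
      PowerSeries.C s * (PowerSeries.mk (fun c => if c = 0 then 0 else μ c) * PowerSeries.mk G) := by
  ext k
  unfold GHI_th
  rw [PowerSeries.coeff_mk, PowerSeries.coeff_mk, PowerSeries.coeff_C_mul, PowerSeries.coeff_mul,
    hG.2 k]
  congr 1
  rw [Finset.Nat.sum_antidiagonal_eq_sum_range_succ_mk, Finset.sum_range_succ', ← Finset.sum_range_reflect]
  simp only [PowerSeries.coeff_mk, if_true, zero_mul, add_zero]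
  apply Finset.sum_congr rfl
  intro j hj
  rw [Finset.mem_range] at hj
  rw [if_neg (by omega), show k - (k - 1 - j) = j + 1 from by omega,
    show k - 1 - j = k - (j + 1) from by omega]

theorem GHI : GHI_stmt := by
  intro s μ G H hG hH n
  have h1 : GHI_th (PowerSeries.mk G * PowerSeries.mk H) = 0 := by
    rw [GHI_leib, GHI_rec s μ G hG, GHI_rec (-s) μ H hH, map_neg]
    ring
  have h2 : (n : ℂ) * ∑ m ∈ range (n + 1), G m * H (n - m) = 0 := by
    have h3 := congrArg (PowerSeries.coeff n) h1
    unfold GHI_th at h3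
    rw [PowerSeries.coeff_mk, PowerSeries.coeff_mul, map_zero,
      Finset.Nat.sum_antidiagonal_eq_sum_range_succ_mk] at h3
    simpa only [PowerSeries.coeff_mk] using h3
  by_cases h0 : n = 0
  · subst h0
    rw [if_pos rfl, Finset.sum_range_one, Nat.sub_zero, hG.1, hH.1, mul_one]
  · rw [if_neg h0]
    exact (mul_eq_zero.1 h2).resolve_left (Nat.cast_ne_zero.2 h0)

end Pool.Agent.GD
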