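import Pool.Agent.helper65.GD.SpecC

/-! # MP_ea335c, row GLI -/

set_option autoImplicit false

namespace Pool.Agent.GD

open Finset Metric Filter Topology

theorem GLI (hGAT : GAT_stmt) (hEXR : EXR_stmt) (hCTN : CTN_stmt) : GLI_stmt := by
  intro p k μ b f G hp hk hA hb hpos hG hf
  have hex : ∀ t : ℕ, ∃ (N : ℕ) (w : Fin N → ℝ) (x : Fin N → ℂ), Atomic N w x ∧
      ∀ m ≤ t, ‖mom w x m - μ m‖ < 1 / ((t : ℝ) + 1) := fun t => hA t _ (by positivity)
  choose N w x hat hmom using hex
  have hν : ∀ m, Tendsto (fun t => mom (w t) (x t) m) atTop (𝓝 (μ m)) := by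
    intro m
    rw [tendsto_iff_norm_sub_tendsto_zero]
    refine squeeze_zero' (Eventually.of_forall fun t => norm_nonneg _) ?_
      (tendsto_one_div_add_atTop_nhds_zero_nat (𝕜 := ℝ))
    filter_upwards [eventually_ge_atTop m] with t ht
    exact (hmom t m ht).le
  choose K hK using fun t => hEXR (2 * p) (mom (w t) (x t))
  choose L hL using fun t => hEXR (-(2 * p)) (mom (w t) (x t))
  have hK' := hCTN (2 * p) μ G (fun t => mom (w t) (x t)) K hν hG hK
  have hF : ∀ n, Tendsto (fun t => ∑ m ∈ range (n + 1), b m * K t (n - m)) atTop (𝓝 (f n)) := by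
    intro n
    rw [hf n]
    apply tendsto_finsetSum
    intro m _
    exact (hK' _).const_mul _
  have h1 := (hF (p + k)).norm
  have h2 : Tendsto (fun t => ∑ j ∈ Icc 1 p, AA p (p + k) j *
      ‖∑ m ∈ range (j + 1), b m * K t (j - m)‖) atTop (𝓝 (∑ j ∈ Icc 1 p, AA p (p + k) j * ‖f j‖)) := by
    apply tendsto_finsetSum
    intro j _
    exact ((hF j).norm).const_mul _
  refine le_of_tendsto_of_tendsto' h1 h2 fun t => ?_
  exact hGAT p k (N t) (w t) (x t) b (fun n => ∑ m ∈ range (n + 1), b m * K t (n - m)) (K t) (L t)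
    hp hk (hat t) hb hpos (hK t) (hL t) (fun _ => rfl)

end Pool.Agent.GD
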