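import Pool.Agent.helper65.GD.Spec

/-! # MP_ea335c, row LIM -/

set_option autoImplicit false

namespace Pool.Agent.GD

open Finset Metric Filter Topology

lemma LIM_al (p k i : ℕ) (G H : ℕ → ℂ) (K L : ℕ → ℕ → ℂ)
    (hK : ∀ m, Tendsto (fun t => K t m) atTop (𝓝 (G m)))
    (hL : ∀ m, Tendsto (fun t => L t m) atTop (𝓝 (H m))) :
    Tendsto (fun t => al p k i (K t) (L t)) atTop (𝓝 (al p k i G H)) := by
  unfold al
  apply Tendsto.sub
  · apply tendsto_finsetSum
    intro m _
    exact (hK _).mul (hL _)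
  · exact ((hK _).mul (hL _)).const_mul _

lemma LIM_be (p k i : ℕ) (G H : ℕ → ℂ) (K L : ℕ → ℕ → ℂ)
    (hK : ∀ m, Tendsto (fun t => K t m) atTop (𝓝 (G m)))
    (hL : ∀ m, Tendsto (fun t => L t m) atTop (𝓝 (H m))) :
    Tendsto (fun t => be p k i (K t) (L t)) atTop (𝓝 (be p k i G H)) := by
  have hL' : ∀ m, Tendsto (fun t => (starRingEnd ℂ) (L t m)) atTop (𝓝 ((starRingEnd ℂ) (H m))) :=
    fun m => (Complex.continuous_conj.tendsto _).comp (hL m)
  unfold be
  apply Tendsto.add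
  · apply tendsto_finsetSum
    intro m _
    exact (hK _).mul (hL' _)
  · exact ((hK _).mul (hL' _)).const_mul _

theorem LIM (hKEY : KEY_stmt) (hEXR : EXR_stmt) (hCTN : CTN_stmt) : LIM_stmt := by
  intro p k i μ G H hp hk hi hC hA hG hH
  have hex : ∀ t : ℕ, ∃ (N : ℕ) (w : Fin N → ℝ) (x : Fin N → ℂ), Atomic N w x ∧
      ∀ m ≤ t, ‖mom w x m - μ m‖ < 1 / ((t : ℝ) + 1) := fun t => hA t _ (by positivity)
  choose N w x hat hmom using hex
  have hν : ∀ m, Tendsto (fun t => mom (w t) (x t) m) atTop (𝓝 (μ m)) := by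
    intro m
    rw [tendsto_iff_norm_sub_tendsto_zero]
    refine squeeze_zero' (Eventually.of_forall fun t => norm_nonneg _) ?_
      (tendsto_one_div_add_atTop_nhds_zero_nat (𝕜 := ℝ))
    filter_upwards [eventually_ge_atTop m] with t ht
    exact (hmom t m ht).le
  choose K hK using fun t => hEXR (2 * p) (mom (w t) (x t))
  choose L hL using fun t => hEXR (-(2 * p)) (mom (w t) (x t))
  have hK' := hCTN (2 * p) μ G (fun t => mom (w t) (x t)) K hν hG hK
  have hL' := hCTN (-(2 * p)) μ H (fun t => mom (w t) (x t)) L hν hH hL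
  have h1 := ((LIM_al p k i G H K L hK' hL').norm).add ((LIM_be p k i G H K L hK' hL').norm)
  refine le_of_tendsto h1 (Eventually.of_forall fun t => ?_)
  obtain ⟨h2, h3⟩ := hKEY p k i (N t) (w t) (x t) (K t) (L t) hp hk hi hC (hat t) (hK t) (hL t)
  have hp0 : (0 : ℝ) < p := by exact_mod_cast hp
  have hk0 : (0 : ℝ) < k := by exact_mod_cast hk
  have h4 : (2 * p + k - i) / (2 * (p + k)) * AA p (p + k) (p - i) +
      ((k : ℝ) + i) / (2 * (p + k)) * AA p (p + k) (p - i) = AA p (p + k) (p - i) := by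
    have h5 : ((p : ℝ) + k) ≠ 0 := by positivity
    field_simp
    ring
  rw [← h4]
  exact add_le_add h2 h3

end Pool.Agent.GD
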