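import Pool.Agent.helper8.GD.Spec

/-!
# Project GD, module N2: the sum over `l`
-/

set_option autoImplicit false

namespace GD

open Finset ArithmeticFunction
open Pool.Agent.helper74.TG (ee gb)

/-! ## Selberg sums -/

theorem N2_hh_nonneg (Q K : Finset ℕ) (hQ : ∀ l ∈ Q, 2 ≤ l) (hK : K ⊆ Q) : 0 ≤ hh K := by
  unfold hh
  refine Finset.prod_nonneg fun l hl => ?_
  have h2 : (2 : ℝ) ≤ l := by exact_mod_cast hQ l (hK hl)
  exact div_nonneg (by norm_num) (by linarith)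

theorem N2_Sub_mem {Q K : Finset ℕ} {R : ℝ} : K ∈ Sub Q R ↔ K ⊆ Q ∧ (pr K : ℝ) ≤ R := by
  unfold Sub
  rw [Finset.mem_filter, Finset.mem_powerset]

theorem N2_Gs_sub (Q : Finset ℕ) (R R' : ℝ) (h : R' ≤ R) :
    Gs Q R - Gs Q R' = ∑ K ∈ Sub Q R \ Sub Q R', hh K := by
  unfold Gs
  rw [Finset.sum_sdiff_eq_sub]
  intro K hK
  rw [N2_Sub_mem] at hK ⊢
  exact ⟨hK.1, hK.2.trans h⟩

theorem N2_erase (Q : Finset ℕ) (hQ : ∀ l ∈ Q, 2 ≤ l) (l : ℕ) (R R' : ℝ) (h : R' ≤ R) :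
    Gs (Q.erase l) R - Gs (Q.erase l) R' ≤ Gs Q R - Gs Q R' := by
  rw [N2_Gs_sub _ _ _ h, N2_Gs_sub _ _ _ h]
  refine Finset.sum_le_sum_of_subset_of_nonneg ?_ ?_
  · intro K hK
    rw [Finset.mem_sdiff, N2_Sub_mem, N2_Sub_mem] at hK ⊢
    refine ⟨⟨hK.1.1.trans (Finset.erase_subset _ _), hK.1.2⟩, fun h' => hK.2 ⟨hK.1.1, h'.2⟩⟩
  · intro K hK _
    rw [Finset.mem_sdiff, N2_Sub_mem] at hK
    exact N2_hh_nonneg Q K hQ hK.1.1

theorem N2_Gs_nonneg (Q : Finset ℕ) (hQ : ∀ l ∈ Q, 2 ≤ l) (R : ℝ) : 0 ≤ Gs Q R := by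
  refine Finset.sum_nonneg fun K hK => ?_
  rw [N2_Sub_mem] at hK
  exact N2_hh_nonneg Q K hQ hK.1

theorem N2_Gs_lt_one (Q : Finset ℕ) (hQ : ∀ l ∈ Q, 2 ≤ l) (R : ℝ) (hR : R < 1) : Gs Q R = 0 := by
  refine Finset.sum_eq_zero fun K hK => ?_
  rw [N2_Sub_mem] at hK
  exfalso
  have h1 : 1 ≤ pr K := by
    unfold pr
    exact Finset.one_le_prod' fun l hl => (by have := hQ l (hK.1 hl); omega)
  have h2 : (1 : ℝ) ≤ (pr K : ℝ) := by exact_mod_cast h1
  linarith [hK.2]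

/-! ## Sums over primes -/

/-- the primes `≡ ± 1 mod 8` in `(x, y]` -/
noncomputable def N2_P (x y : ℝ) : Finset ℕ :=
  (Icc 1 ⌊y⌋₊).filter fun l => (l.Prime ∧ (l % 8 = 1 ∨ l % 8 = 7)) ∧ x < (l : ℝ)

theorem N2_mem {x y : ℝ} (hy : 0 ≤ y) {l : ℕ} :
    l ∈ N2_P x y ↔ (l.Prime ∧ (l % 8 = 1 ∨ l % 8 = 7)) ∧ x < (l : ℝ) ∧ (l : ℝ) ≤ y := by
  unfold N2_P
  rw [Finset.mem_filter, Finset.mem_Icc, Nat.le_floor_iff hy]
  constructor
  · rintro ⟨⟨_, h1⟩, h2, h3⟩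
    exact ⟨h2, h3, h1⟩
  · rintro ⟨h1, h2, h3⟩
    exact ⟨⟨h1.1.one_le, h3⟩, h1, h2⟩

/-- the hypothesis G1 with its constant -/
def N2_G (C : ℝ) : Prop := ∀ x : ℝ, 1 ≤ x →
  |∑ l ∈ (Icc 1 ⌊x⌋₊).filter (fun l => l.Prime ∧ (l % 8 = 1 ∨ l % 8 = 7)), 2 * Real.log l / l
    - Real.log x| ≤ C

theorem N2_piece {C : ℝ} (hG : N2_G C) (x y : ℝ) (hx : 1 ≤ x) (hxy : x ≤ y) :
    ∑ l ∈ N2_P x y, 2 * Real.log l / l ≤ Real.log y - Real.log x + 2 * C := by
  have h1 := abs_le.mp (hG x hx)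
  have h2 := abs_le.mp (hG y (hx.trans hxy))
  have hy0 : 0 ≤ y := by linarith
  have hx0 : 0 ≤ x := by linarith
  have h3 : (Icc 1 ⌊y⌋₊).filter (fun l => l.Prime ∧ (l % 8 = 1 ∨ l % 8 = 7)) =
      (Icc 1 ⌊x⌋₊).filter (fun l => l.Prime ∧ (l % 8 = 1 ∨ l % 8 = 7)) ∪ N2_P x y := by
    ext l
    rw [Finset.mem_union, N2_mem hy0, Finset.mem_filter, Finset.mem_filter, Finset.mem_Icc,
      Finset.mem_Icc, Nat.le_floor_iff hy0, Nat.le_floor_iff hx0]
    constructor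
    · rintro ⟨⟨h4, h5⟩, h6⟩
      rcases le_or_gt (l : ℝ) x with h7 | h7
      · exact Or.inl ⟨⟨h4, h7⟩, h6⟩
      · exact Or.inr ⟨h6, h7, h5⟩
    · rintro (⟨⟨h4, h5⟩, h6⟩ | ⟨h6, h7, h5⟩)
      · exact ⟨⟨h4, h5.trans hxy⟩, h6⟩
      · exact ⟨⟨h6.1.one_le, h5⟩, h6⟩
  have h4 : Disjoint ((Icc 1 ⌊x⌋₊).filter (fun l => l.Prime ∧ (l % 8 = 1 ∨ l % 8 = 7)))
      (N2_P x y) := by
    rw [Finset.disjoint_left]
    intro l hl hl'
    rw [N2_mem hy0] at hl'
    rw [Finset.mem_filter, Finset.mem_Icc, Nat.le_floor_iff hx0] at hl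
    linarith [hl.1.2, hl'.2.1]
  rw [h3, Finset.sum_union h4] at h2
  linarith [h1.1, h2.2]

theorem N2_riemann {C : ℝ} (hG : N2_G C) (X : ℕ) (hX : 1 < X) (a Δ : ℝ) (ha : 0 ≤ a) (hΔ : 0 ≤ Δ)
    (F : ℝ → ℝ) (J : ℕ) (hF0 : ∀ i < J, 0 ≤ F (a + i * Δ))
    (hF : ∀ i < J, ∀ t, a + i * Δ < t → t ≤ a + ((i : ℝ) + 1) * Δ → F t ≤ F (a + i * Δ)) :
    ∑ l ∈ N2_P ((X : ℝ) ^ a) ((X : ℝ) ^ (a + J * Δ)),
      2 * Real.log l / l * F (Real.log l / Real.log X) ≤
      ∑ i ∈ range J, F (a + i * Δ) * (Δ * Real.log X + 2 * C) := by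
  have hX1 : (1 : ℝ) < X := by exact_mod_cast hX
  have hX0 : (0 : ℝ) < X := by linarith
  have hL : 0 < Real.log X := Real.log_pos hX1
  induction J with
  | zero =>
    have : N2_P ((X : ℝ) ^ a) ((X : ℝ) ^ (a + ((0 : ℕ) : ℝ) * Δ)) = ∅ := by
      rw [Finset.eq_empty_iff_forall_notMem]
      intro l hl
      rw [N2_mem (by positivity)] at hl
      have : a + ((0 : ℕ) : ℝ) * Δ = a := by simp
      rw [this] at hl
      linarith [hl.2.1, hl.2.2]
    rw [this]; simp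
  | succ J ih =>
    have ih' := ih (fun i hi => hF0 i (by omega)) (fun i hi => hF i (by omega))
    have hmid : a + J * Δ ≤ a + ((J + 1 : ℕ) : ℝ) * Δ := by push_cast; nlinarith
    have ha' : 0 ≤ a + J * Δ := by positivity
    have hm1 : (X : ℝ) ^ (a + J * Δ) ≤ (X : ℝ) ^ (a + ((J + 1 : ℕ) : ℝ) * Δ) :=
      Real.rpow_le_rpow_of_exponent_le hX1.le hmid
    have hm2 : (X : ℝ) ^ a ≤ (X : ℝ) ^ (a + J * Δ) :=
      Real.rpow_le_rpow_of_exponent_le hX1.le (by linarith [mul_nonneg (Nat.cast_nonneg J) hΔ])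
    have hm3 : 1 ≤ (X : ℝ) ^ (a + J * Δ) := Real.one_le_rpow hX1.le ha'
    have hsplit : N2_P ((X : ℝ) ^ a) ((X : ℝ) ^ (a + ((J + 1 : ℕ) : ℝ) * Δ)) =
        N2_P ((X : ℝ) ^ a) ((X : ℝ) ^ (a + J * Δ)) ∪
          N2_P ((X : ℝ) ^ (a + J * Δ)) ((X : ℝ) ^ (a + ((J + 1 : ℕ) : ℝ) * Δ)) := by
      ext l
      rw [Finset.mem_union, N2_mem (by positivity), N2_mem (by positivity), N2_mem (by positivity)]
      constructor
      · rintro ⟨h1, h2, h3⟩
        rcases le_or_gt (l : ℝ) ((X : ℝ) ^ (a + J * Δ)) with h4 | h4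
        · exact Or.inl ⟨h1, h2, h4⟩
        · exact Or.inr ⟨h1, h4, h3⟩
      · rintro (⟨h1, h2, h3⟩ | ⟨h1, h2, h3⟩)
        · exact ⟨h1, h2, h3.trans hm1⟩
        · exact ⟨h1, hm2.trans_lt h2, h3⟩
    have hdisj : Disjoint (N2_P ((X : ℝ) ^ a) ((X : ℝ) ^ (a + J * Δ)))
        (N2_P ((X : ℝ) ^ (a + J * Δ)) ((X : ℝ) ^ (a + ((J + 1 : ℕ) : ℝ) * Δ))) := by
      rw [Finset.disjoint_left]
      intro l hl hl'
      rw [N2_mem (by positivity)] at hl hl'
      linarith [hl.2.2, hl'.2.1]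
    rw [hsplit, Finset.sum_union hdisj, Finset.sum_range_succ]
    refine add_le_add ih' ?_
    have hterm : ∀ l ∈ N2_P ((X : ℝ) ^ (a + J * Δ)) ((X : ℝ) ^ (a + ((J + 1 : ℕ) : ℝ) * Δ)),
        2 * Real.log l / l * F (Real.log l / Real.log X) ≤
          2 * Real.log l / l * F (a + J * Δ) := by
      intro l hl
      rw [N2_mem (by positivity)] at hl
      obtain ⟨⟨hp, -⟩, h1, h2⟩ := hl
      have hl1 : (1 : ℝ) ≤ l := by exact_mod_cast hp.one_le
      have hl0 : (0 : ℝ) < l := by linarith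
      have hlog : 0 ≤ Real.log l := Real.log_nonneg hl1
      apply mul_le_mul_of_nonneg_left _ (by positivity)
      apply hF J (by omega)
      · rw [lt_div_iff₀ hL]
        have := Real.log_lt_log (by positivity) h1
        rwa [Real.log_rpow hX0] at this
      · rw [div_le_iff₀ hL]
        have := Real.log_le_log hl0 h2
        rw [Real.log_rpow hX0] at this
        push_cast at this
        exact this
    refine (Finset.sum_le_sum hterm).trans ?_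
    rw [← Finset.sum_mul, mul_comm]
    apply mul_le_mul_of_nonneg_left _ (hF0 J (by omega))
    have h1 := N2_piece hG _ _ hm3 hm1
    rw [Real.log_rpow hX0, Real.log_rpow hX0] at h1
    refine h1.trans (le_of_eq ?_)
    push_cast
    ring

/-! ## The two Riemann sums -/

theorem N2_sum1 (θ : ℝ) (J : ℕ) :
    ∑ i ∈ range J, (1 - (i : ℝ) * θ) = J - θ * (J * ((J : ℝ) - 1) / 2) := by
  induction J with
  | zero => simp
  | succ J ih =>
    rw [Finset.sum_range_succ, ih]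
    push_cast
    ring

theorem N2_sum2 (ρ Δ : ℝ) (hρ : 0 < ρ) (hΔ : 0 ≤ Δ) (J : ℕ) :
    ∑ i ∈ range J, Δ / (ρ + i * Δ) ≤ Real.log ((ρ + J * Δ) / ρ) + Δ / ρ - Δ / (ρ + J * Δ) := by
  induction J with
  | zero =>
    have : (ρ + ((0 : ℕ) : ℝ) * Δ) = ρ := by simp
    rw [this, div_self hρ.ne']
    simp
  | succ J ih =>
    rw [Finset.sum_range_succ]
    have h1 : 0 < ρ + J * Δ := by positivity
    have h2 : 0 < ρ + ((J + 1 : ℕ) : ℝ) * Δ := by positivity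
    have h3 : Real.log ((ρ + ((J + 1 : ℕ) : ℝ) * Δ) / ρ) =
        Real.log ((ρ + J * Δ) / ρ) + Real.log ((ρ + ((J + 1 : ℕ) : ℝ) * Δ) / (ρ + J * Δ)) := by
      rw [← Real.log_mul (by positivity) (by positivity)]
      congr 1
      field_simp
    have h4 := Real.one_sub_inv_le_log_of_pos
      (show 0 < (ρ + ((J + 1 : ℕ) : ℝ) * Δ) / (ρ + J * Δ) by positivity)
    have h5 : 1 - ((ρ + ((J + 1 : ℕ) : ℝ) * Δ) / (ρ + J * Δ))⁻¹ =
        Δ / (ρ + ((J + 1 : ℕ) : ℝ) * Δ) := by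
      rw [inv_div]
      field_simp
      push_cast
      ring
    rw [h5] at h4
    rw [h3]
    linarith

/-! ## The limit -/

theorem N2_limit (ρ A B₁ k k' C₂ E B₂ κ : ℝ) (hρ : 0 < ρ) (hκ : 0 < κ) :
    ∃ L₀ : ℝ, ∀ L : ℝ, L₀ ≤ L → 0 < ρ * L - k * Real.log L ∧
      (L * (ρ * A) + B₁) / (ρ * L - k * Real.log L) +
        k' * Real.log L * (Real.log L + C₂) / (ρ * L - k * Real.log L) + (E + B₂ / L) ≤
          A + E + κ := by
  have t1 : Filter.Tendsto (fun L : ℝ => Real.log L / L) Filter.atTop (nhds 0) :=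
    Real.isLittleO_log_id_atTop.tendsto_div_nhds_zero
  have t2 : Filter.Tendsto (fun L : ℝ => Real.log L ^ 2 / L) Filter.atTop (nhds 0) :=
    (Real.isLittleO_pow_log_id_atTop (n := 2)).tendsto_div_nhds_zero
  have t3 : Filter.Tendsto (fun L : ℝ => L⁻¹) Filter.atTop (nhds 0) := tendsto_inv_atTop_zero
  have td : Filter.Tendsto (fun L : ℝ => ρ - k * (Real.log L / L)) Filter.atTop
      (nhds (ρ - k * 0)) := tendsto_const_nhds.sub (tendsto_const_nhds.mul t1)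
  have hne : ρ - k * 0 ≠ 0 := by simp [hρ.ne']
  have tt : Filter.Tendsto (fun L : ℝ => (ρ * A + B₁ * L⁻¹) / (ρ - k * (Real.log L / L)) +
      k' * (Real.log L ^ 2 / L + C₂ * (Real.log L / L)) / (ρ - k * (Real.log L / L)) +
        (E + B₂ * L⁻¹)) Filter.atTop
      (nhds ((ρ * A + B₁ * 0) / (ρ - k * 0) + k' * (0 + C₂ * 0) / (ρ - k * 0) +
        (E + B₂ * 0))) := by
    refine Filter.Tendsto.add (Filter.Tendsto.add ?_ ?_) ?_
    · exact (tendsto_const_nhds.add (tendsto_const_nhds.mul t3)).div td hne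
    · exact (tendsto_const_nhds.mul (t2.add (tendsto_const_nhds.mul t1))).div td hne
    · exact tendsto_const_nhds.add (tendsto_const_nhds.mul t3)
  have hval : (ρ * A + B₁ * 0) / (ρ - k * 0) + k' * (0 + C₂ * 0) / (ρ - k * 0) +
      (E + B₂ * 0) = A + E := by
    simp only [mul_zero, add_zero, sub_zero, zero_div]
    rw [mul_div_cancel_left₀ _ hρ.ne']
  rw [hval] at tt
  have e1 := tt.eventually_lt_const (show A + E < A + E + κ by linarith)
  have e2 := td.eventually_const_lt (show (0 : ℝ) < ρ - k * 0 by simpa using hρ)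
  obtain ⟨L₀, h⟩ := Filter.eventually_atTop.mp
    ((e1.and e2).and (Filter.eventually_gt_atTop (0 : ℝ)))
  refine ⟨L₀, fun L hL => ?_⟩
  obtain ⟨⟨h1, h2⟩, h3⟩ := h L hL
  have h4 : ρ * L - k * Real.log L = L * (ρ - k * (Real.log L / L)) := by
    field_simp
  refine ⟨by rw [h4]; positivity, ?_⟩
  refine le_trans (le_of_eq ?_) h1.le
  rw [h4]
  field_simp

/-! ## The main estimate -/

theorem N2_Qmem {w : ℕ} {z : ℝ} (hz : 0 ≤ z) {l : ℕ} : l ∈ Qs w z ↔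
    (l.Prime ∧ (l % 8 = 1 ∨ l % 8 = 7)) ∧ w < l ∧ (l : ℝ) ≤ z := by
  unfold Qs
  rw [Finset.mem_filter, Finset.mem_Icc, Nat.le_floor_iff hz]
  constructor
  · rintro ⟨⟨_, h1⟩, h2, h3, h4⟩
    exact ⟨⟨h2, h4⟩, h3, h1⟩
  · rintro ⟨⟨h2, h4⟩, h3, h1⟩
    exact ⟨⟨h2.one_le, h1⟩, h2, h3, h4⟩

theorem N2_S1 {CG : ℝ} (hG : N2_G CG) (hCG : 0 < CG) (X : ℕ) (hX : 1 < X) (ρ υ : ℝ) (hρ : 0 < ρ)
    (hρυ : ρ < υ) (J : ℕ) (hJ : 0 < J) :
    ∑ l ∈ N2_P ((X : ℝ) ^ (0 : ℝ)) ((X : ℝ) ^ ρ),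
      2 * Real.log l / l * (1 - Real.log l / Real.log X / υ) ≤
      Real.log X * (ρ * (1 - ρ / (2 * υ) + ρ / (2 * υ * J))) + 2 * CG * J := by
  have hX1 : (1 : ℝ) < X := by exact_mod_cast hX
  have hL : 0 < Real.log X := Real.log_pos hX1
  have hυ : 0 < υ := hρ.trans hρυ
  have hJ0 : (0 : ℝ) < J := by exact_mod_cast hJ
  have h1 := N2_riemann hG X hX 0 (ρ / J) le_rfl (by positivity) (fun t => 1 - t / υ) J
    (by
      intro i hi
      have hi' : (i : ℝ) ≤ J := by exact_mod_cast hi.le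
      have : 0 + (i : ℝ) * (ρ / J) ≤ υ := by
        rw [zero_add, mul_div_assoc', div_le_iff₀ hJ0]
        nlinarith
      show 0 ≤ 1 - (0 + (i : ℝ) * (ρ / J)) / υ
      rw [sub_nonneg, div_le_one hυ]
      exact this)
    (by
      intro i _ t ht _
      show 1 - t / υ ≤ 1 - (0 + (i : ℝ) * (ρ / J)) / υ
      gcongr)
  have e1 : 0 + (J : ℝ) * (ρ / J) = ρ := by field_simp; ring
  rw [e1] at h1
  refine h1.trans ?_
  have h2 : ∑ i ∈ range J, (1 - (0 + (i : ℝ) * (ρ / J)) / υ) * (ρ / J * Real.log X + 2 * CG) =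
      (J - ρ / J / υ * (J * ((J : ℝ) - 1) / 2)) * (ρ / J * Real.log X + 2 * CG) := by
    rw [← N2_sum1, Finset.sum_mul]
    refine Finset.sum_congr rfl fun i _ => ?_
    congr 1
    ring
  show ∑ i ∈ range J, (1 - (0 + (i : ℝ) * (ρ / J)) / υ) * (ρ / J * Real.log X + 2 * CG) ≤ _
  rw [h2]
  have hJ1 : (1 : ℝ) ≤ J := by exact_mod_cast hJ
  have h3 : ρ / J / υ * (J * ((J : ℝ) - 1) / 2) = ρ / (2 * υ) * ((J : ℝ) - 1) := by
    field_simp
  rw [h3]
  have h4 : (J - ρ / (2 * υ) * ((J : ℝ) - 1)) * (ρ / J * Real.log X + 2 * CG) =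
      Real.log X * (ρ * (1 - ρ / (2 * υ) + ρ / (2 * υ * J))) + 2 * CG * J -
        2 * CG * (ρ / (2 * υ) * ((J : ℝ) - 1)) := by
    field_simp
    ring
  rw [h4]
  have h5 : 0 ≤ 2 * CG * (ρ / (2 * υ) * ((J : ℝ) - 1)) :=
    mul_nonneg (by positivity) (mul_nonneg (by positivity) (by linarith))
  linarith

theorem N2_S4 {CG : ℝ} (hG : N2_G CG) (hCG : 0 < CG) (X : ℕ) (hX : 1 < X) (ρ υ : ℝ) (hρ : 0 < ρ)
    (hρυ : ρ < υ) (J : ℕ) (hJ : 0 < J) :
    ∑ l ∈ N2_P ((X : ℝ) ^ ρ) ((X : ℝ) ^ υ),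
      2 / (l : ℝ) * (1 - Real.log l / (υ * Real.log X)) ≤
      Real.log (υ / ρ) + (υ - ρ) / (ρ * J) - (υ - ρ) / υ + 2 * CG * J / ρ / Real.log X := by
  have hX1 : (1 : ℝ) < X := by exact_mod_cast hX
  have hX0 : (0 : ℝ) < X := by linarith
  have hL : 0 < Real.log X := Real.log_pos hX1
  have hυ : 0 < υ := hρ.trans hρυ
  have hJ0 : (0 : ℝ) < J := by exact_mod_cast hJ
  set Δ := (υ - ρ) / J with hΔ
  have hΔ0 : 0 < Δ := div_pos (by linarith) hJ0
  have e1 : ρ + (J : ℝ) * Δ = υ := by rw [hΔ]; field_simp; ring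
  have hti : ∀ i : ℕ, i < J → ρ + (i : ℝ) * Δ ≤ υ := by
    intro i hi
    have hi' : (i : ℝ) ≤ J := by exact_mod_cast hi.le
    rw [← e1]
    gcongr
  have hti0 : ∀ i : ℕ, 0 < ρ + (i : ℝ) * Δ := fun i => by positivity
  have h1 := N2_riemann hG X hX ρ Δ hρ.le hΔ0.le (fun t => 1 / t - 1 / υ) J
    (by
      intro i hi
      show 0 ≤ 1 / (ρ + (i : ℝ) * Δ) - 1 / υ
      rw [sub_nonneg]
      exact one_div_le_one_div_of_le (hti0 i) (hti i hi))
    (by
      intro i _ t ht _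
      show 1 / t - 1 / υ ≤ 1 / (ρ + (i : ℝ) * Δ) - 1 / υ
      have := one_div_le_one_div_of_le (hti0 i) ht.le
      linarith)
  rw [e1] at h1
  have h2 : ∑ l ∈ N2_P ((X : ℝ) ^ ρ) ((X : ℝ) ^ υ),
      2 / (l : ℝ) * (1 - Real.log l / (υ * Real.log X)) =
      (1 / Real.log X) * ∑ l ∈ N2_P ((X : ℝ) ^ ρ) ((X : ℝ) ^ υ),
        2 * Real.log l / l * (1 / (Real.log l / Real.log X) - 1 / υ) := by
    rw [Finset.mul_sum]
    refine Finset.sum_congr rfl fun l hl => ?_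
    rw [N2_mem (by positivity)] at hl
    have hl1 : (1 : ℝ) < l := by exact_mod_cast hl.1.1.one_lt
    have hlog : 0 < Real.log l := Real.log_pos hl1
    have hl0 : (0 : ℝ) < l := by linarith
    field_simp
  rw [h2]
  have h3 : ∑ i ∈ range J, (1 / (ρ + (i : ℝ) * Δ) - 1 / υ) * (Δ * Real.log X + 2 * CG) ≤
      Real.log X * (Real.log (υ / ρ) + Δ / ρ - (υ - ρ) / υ) + 2 * CG * J / ρ := by
    have h4 : ∑ i ∈ range J, (1 / (ρ + (i : ℝ) * Δ) - 1 / υ) * (Δ * Real.log X + 2 * CG) =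
        Real.log X * (∑ i ∈ range J, Δ / (ρ + (i : ℝ) * Δ) - J * Δ / υ) +
          2 * CG * ∑ i ∈ range J, (1 / (ρ + (i : ℝ) * Δ) - 1 / υ) := by
      have h5 : (J : ℝ) * Δ / υ = ∑ i ∈ range J, Δ / υ := by
        rw [Finset.sum_const, Finset.card_range, nsmul_eq_mul]
        ring
      rw [h5, ← Finset.sum_sub_distrib, Finset.mul_sum, Finset.mul_sum, ← Finset.sum_add_distrib]
      refine Finset.sum_congr rfl fun i _ => ?_
      have := (hti0 i).ne'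
      field_simp
    rw [h4]
    have h5 := N2_sum2 ρ Δ hρ hΔ0.le J
    rw [e1] at h5
    have h6 : ∑ i ∈ range J, (1 / (ρ + (i : ℝ) * Δ) - 1 / υ) ≤ J / ρ := by
      have h7 : ∀ i ∈ range J, (1 / (ρ + (i : ℝ) * Δ) - 1 / υ) ≤ 1 / ρ := by
        intro i _
        have h8 : 1 / (ρ + (i : ℝ) * Δ) ≤ 1 / ρ :=
          one_div_le_one_div_of_le hρ (by have : 0 ≤ (i : ℝ) * Δ := by positivity
                                          linarith)
        have h9 : 0 < 1 / υ := by positivity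
        linarith
      have := Finset.sum_le_sum h7
      rw [Finset.sum_const, Finset.card_range, nsmul_eq_mul] at this
      refine this.trans (le_of_eq ?_)
      ring
    have h7 : J * Δ / υ = (υ - ρ) / υ := by
      rw [hΔ, mul_div_cancel₀ _ hJ0.ne']
    have h8 : 0 < Δ / υ := by positivity
    rw [h7]
    have h9 : ∑ i ∈ range J, Δ / (ρ + (i : ℝ) * Δ) - (υ - ρ) / υ ≤
        Real.log (υ / ρ) + Δ / ρ - (υ - ρ) / υ := by linarith
    have h10 := mul_le_mul_of_nonneg_left h9 hL.le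
    have h11 : 2 * CG * ∑ i ∈ range J, (1 / (ρ + (i : ℝ) * Δ) - 1 / υ) ≤ 2 * CG * (J / ρ) :=
      mul_le_mul_of_nonneg_left h6 (by positivity)
    have h12 : 2 * CG * (J / ρ) = 2 * CG * J / ρ := by ring
    linarith
  have h4 := h1.trans h3
  have h5 := mul_le_mul_of_nonneg_left h4 (show 0 ≤ 1 / Real.log X by positivity)
  refine h5.trans (le_of_eq ?_)
  have h6 : Δ / ρ = (υ - ρ) / (ρ * J) := by rw [hΔ]; field_simp
  rw [h6]
  field_simp

/-- the estimate for one `X` -/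
theorem N2_main (C₁ CG C₂ : ℝ) (hC₁ : 1 ≤ C₁) (hCG : 0 < CG) (hC₂ : 0 < C₂) (hG : N2_G CG)
    (hG2 : ∀ (u : ℕ) (v : ℝ), 2 ≤ u → (u : ℝ) ≤ v →
      |∑ l ∈ Qs u v, 2 / (l : ℝ) - (Real.log (Real.log v) - Real.log (Real.log u))| ≤
        C₂ / Real.log u)
    (hN : ∀ (w : ℕ) (z : ℝ), 2 ≤ w → (w : ℝ) ≤ z → ∃ lam₀ : ℝ, 0 < lam₀ ∧
      ∀ x : ℝ, 1 ≤ x → x ≤ z → |Gs (Qs w z) x - lam₀ * Real.log x| ≤ C₁ * lam₀ * Real.log w)
    (ρ υ T δ : ℝ) (hρ : 0 < ρ) (hρυ : ρ < υ) (hυ1 : υ < 1) (hT : 0 ≤ T) (hδ : 0 < δ) (hδρ : δ ≤ ρ)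
    (J C : ℕ) (hJ : 0 < J) (hC : 0 < C) (X : ℕ) (hL3 : 3 ≤ Real.log X)
    (hH' : 0 < ρ * Real.log X - C₁ * C * Real.log (Real.log X)) :
    ∑ l ∈ Qs (wX X C) ((X : ℝ) ^ υ), vv υ T δ X l * (2 / (l : ℝ)) *
      (Gs ((Qs (wX X C) ((X : ℝ) ^ υ)).erase l) ((X : ℝ) ^ ρ) -
        Gs ((Qs (wX X C) ((X : ℝ) ^ υ)).erase l) ((X : ℝ) ^ ρ / l)) ≤
    ((Real.log X * (ρ * (1 - ρ / (2 * υ) + ρ / (2 * υ * J) + T * δ / ρ)) + (2 * CG * J + T * CG)) /
        (ρ * Real.log X - C₁ * C * Real.log (Real.log X)) +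
      2 * C₁ * C * (1 + T) * Real.log (Real.log X) * (Real.log (Real.log X) + C₂) /
        (ρ * Real.log X - C₁ * C * Real.log (Real.log X)) +
      (Real.log (υ / ρ) + (υ - ρ) / (ρ * J) - (υ - ρ) / υ + 2 * CG * J / ρ / Real.log X)) *
    Gs (Qs (wX X C) ((X : ℝ) ^ υ)) ((X : ℝ) ^ ρ) := by
  have hυ : 0 < υ := hρ.trans hρυ
  have hX0 : (0 : ℝ) < X := by
    rcases Nat.eq_zero_or_pos X with h | h
    · rw [h] at hL3; simp at hL3; norm_num at hL3
    · exact_mod_cast h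
  have hX1 : (1 : ℝ) < X := by
    by_contra h
    push Not at h
    have := Real.log_nonpos hX0.le h
    linarith
  have hX : 1 < X := by exact_mod_cast hX1
  set L := Real.log X with hL
  have hL0 : 0 < L := by linarith
  have hlogL : 1 ≤ Real.log L := by
    rw [Real.le_log_iff_exp_le hL0]
    have := Real.exp_one_lt_d9
    linarith
  have hlogL0 : 0 < Real.log L := by linarith
  -- the parameter w
  set w := wX X C with hw
  have hLC : (3 : ℝ) ≤ L ^ C := hL3.trans (le_self_pow₀ (by linarith) hC.ne')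
  have hw3 : 3 ≤ w := by
    rw [hw]; unfold wX
    exact Nat.le_floor (by exact_mod_cast hLC)
  have hwL : (w : ℝ) ≤ L ^ C := by
    rw [hw]; unfold wX
    exact Nat.floor_le (by positivity)
  have hw0 : (0 : ℝ) < w := by
    have : (3 : ℝ) ≤ w := by exact_mod_cast hw3
    linarith
  have hlogw : Real.log w ≤ C * Real.log L := by
    have := Real.log_le_log hw0 hwL
    rwa [Real.log_pow] at this
  have hlogw1 : 1 ≤ Real.log w := by
    rw [Real.le_log_iff_exp_le hw0]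
    have h1 := Real.exp_one_lt_d9
    have h2 : (3 : ℝ) ≤ w := by exact_mod_cast hw3
    linarith
  have hCL : C * Real.log L < ρ * L := by
    have h1 : C * Real.log L ≤ C₁ * (C * Real.log L) :=
      le_mul_of_one_le_left (by positivity) hC₁
    have h2 : C₁ * C * Real.log L = C₁ * (C * Real.log L) := by ring
    linarith
  set z := (X : ℝ) ^ υ with hz
  set R := (X : ℝ) ^ ρ with hR
  have hz0 : 0 < z := by positivity
  have hR0 : 0 < R := by positivity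
  have hlogz : Real.log z = υ * L := Real.log_rpow hX0 υ
  have hlogR : Real.log R = ρ * L := Real.log_rpow hX0 ρ
  have hwz : (w : ℝ) ≤ z := by
    rw [← Real.log_le_log_iff hw0 hz0, hlogz]
    nlinarith
  have hR1 : 1 ≤ R := Real.one_le_rpow hX1.le hρ.le
  have hRz : R ≤ z := Real.rpow_le_rpow_of_exponent_le hX1.le hρυ.le
  obtain ⟨lam, hlam, hg⟩ := hN w z (by omega) hwz
  set Q := Qs w z with hQ
  have hQmem : ∀ l ∈ Q, (l.Prime ∧ (l % 8 = 1 ∨ l % 8 = 7)) ∧ w < l ∧ (l : ℝ) ≤ z := by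
    intro l hl
    rwa [hQ, N2_Qmem hz0.le] at hl
  have hQ2 : ∀ l ∈ Q, 2 ≤ l := fun l hl => (hQmem l hl).1.1.two_le
  set g := Gs Q R with hgdef
  have hg0 : 0 ≤ g := N2_Gs_nonneg Q hQ2 R
  set H' := ρ * L - C₁ * C * Real.log L with hH'def
  have hgR := abs_le.mp (hg R hR1 hRz)
  rw [hlogR] at hgR
  have hlamg : lam * H' ≤ g := by
    have h1 : C₁ * lam * Real.log w ≤ C₁ * lam * (C * Real.log L) :=
      mul_le_mul_of_nonneg_left hlogw (by positivity)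
    have h2 : lam * H' = lam * (ρ * L) - C₁ * lam * (C * Real.log L) := by rw [hH'def]; ring
    linarith [hgR.1]
  have hD : ∀ l ∈ Q, Gs (Q.erase l) R - Gs (Q.erase l) (R / l) ≤
      g * (if (l : ℝ) ≤ R then (Real.log l + 2 * C₁ * Real.log w) / H' else 1) := by
    intro l hl
    have hl1 : (1 : ℝ) ≤ l := by exact_mod_cast (hQmem l hl).1.1.one_le
    have hl0 : (0 : ℝ) < l := by linarith
    have hRl : R / l ≤ R := div_le_self hR0.le hl1
    have h1 := N2_erase Q hQ2 l R (R / l) hRl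
    refine h1.trans ?_
    by_cases hlR : (l : ℝ) ≤ R
    · rw [if_pos hlR]
      have h2 : 1 ≤ R / l := (one_le_div hl0).mpr hlR
      have h3 := abs_le.mp (hg (R / l) h2 (hRl.trans hRz))
      rw [Real.log_div hR0.ne' hl0.ne', hlogR] at h3
      have h4 : Gs Q R - Gs Q (R / l) ≤ lam * (Real.log l + 2 * C₁ * Real.log w) := by
        have e : lam * (Real.log l + 2 * C₁ * Real.log w) =
          (lam * (ρ * L) + C₁ * lam * Real.log w) - (lam * (ρ * L - Real.log l) -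
            C₁ * lam * Real.log w) := by ring
        rw [e]
        linarith [hgR.2, h3.1]
      refine h4.trans ?_
      rw [← mul_div_assoc, le_div_iff₀ hH']
      have h5 : 0 ≤ Real.log l + 2 * C₁ * Real.log w := by
        have := Real.log_nonneg hl1
        positivity
      calc lam * (Real.log l + 2 * C₁ * Real.log w) * H' =
            (lam * H') * (Real.log l + 2 * C₁ * Real.log w) := by ring
        _ ≤ g * (Real.log l + 2 * C₁ * Real.log w) := mul_le_mul_of_nonneg_right hlamg h5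
    · rw [if_neg hlR, mul_one]
      push Not at hlR
      have h2 : R / l < 1 := (div_lt_one hl0).mpr hlR
      rw [N2_Gs_lt_one Q hQ2 (R / l) h2, sub_zero]
  -- properties of the weights
  have hf : ∀ l ∈ Q, 0 ≤ 1 - Real.log l / (υ * L) ∧ 1 - Real.log l / (υ * L) ≤ 1 := by
    intro l hl
    obtain ⟨⟨hp, -⟩, -, hlz⟩ := hQmem l hl
    have hl1 : (1 : ℝ) ≤ l := by exact_mod_cast hp.one_le
    have h1 := Real.log_le_log (by linarith) hlz
    rw [hlogz] at h1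
    have h2 := Real.log_nonneg hl1
    constructor
    · rw [sub_nonneg, div_le_one (by positivity)]; exact h1
    · have : 0 ≤ Real.log l / (υ * L) := by positivity
      linarith
  have hvv0 : ∀ l ∈ Q, 0 ≤ vv υ T δ X l := by
    intro l hl
    unfold vv
    have := (hf l hl).1
    split_ifs <;> linarith
  have hvv1 : ∀ l ∈ Q, vv υ T δ X l ≤ 1 + T := by
    intro l hl
    unfold vv
    have := (hf l hl).2
    rw [← hL]
    split_ifs <;> linarith
  have hδR : (X : ℝ) ^ δ ≤ R := Real.rpow_le_rpow_of_exponent_le hX1.le hδρ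
  -- pointwise bound
  have hpt : ∀ l ∈ Q, vv υ T δ X l * (2 / (l : ℝ)) *
      (if (l : ℝ) ≤ R then (Real.log l + 2 * C₁ * Real.log w) / H' else 1) ≤
      (if (l : ℝ) ≤ R then 2 * Real.log l / l * (1 - Real.log l / L / υ) / H' else 0) +
      (if (l : ℝ) ≤ (X : ℝ) ^ δ then T * (2 * Real.log l / l) / H' else 0) +
      (1 + T) * (2 * C₁ * Real.log w) / H' * (2 / (l : ℝ)) +
      (if (l : ℝ) ≤ R then 0 else 2 / (l : ℝ) * (1 - Real.log l / (υ * L))) := by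
    intro l hl
    have hl1 : (1 : ℝ) ≤ l := by exact_mod_cast (hQmem l hl).1.1.one_le
    have hl0 : (0 : ℝ) < l := by linarith
    have hlog := Real.log_nonneg hl1
    by_cases hlR : (l : ℝ) ≤ R
    · rw [if_pos hlR, if_pos hlR, if_pos hlR]
      have h1 : vv υ T δ X l * (2 / (l : ℝ)) * ((Real.log l + 2 * C₁ * Real.log w) / H') =
          vv υ T δ X l * (2 * Real.log l / l) / H' +
            vv υ T δ X l * (2 * C₁ * Real.log w) / H' * (2 / (l : ℝ)) := by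
        field_simp
      have h2 : vv υ T δ X l * (2 * C₁ * Real.log w) / H' * (2 / (l : ℝ)) ≤
          (1 + T) * (2 * C₁ * Real.log w) / H' * (2 / (l : ℝ)) := by
        have := hvv1 l hl
        gcongr
      have h3 : vv υ T δ X l * (2 * Real.log l / l) / H' =
          2 * Real.log l / l * (1 - Real.log l / L / υ) / H' +
            (if (l : ℝ) ≤ (X : ℝ) ^ δ then T * (2 * Real.log l / l) / H' else 0) := by
        unfold vv
        rw [← hL]
        have e : Real.log l / (υ * L) = Real.log l / L / υ := by rw [div_div, mul_comm L υ]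
        rw [e]
        split_ifs <;> ring
      rw [h1, h3]
      linarith
    · rw [if_neg hlR, if_neg hlR, if_neg hlR]
      have hlδ : ¬ (l : ℝ) ≤ (X : ℝ) ^ δ := fun h => hlR (h.trans hδR)
      rw [if_neg hlδ]
      have h1 : vv υ T δ X l = 1 - Real.log l / (υ * L) := by
        unfold vv
        rw [if_neg hlδ, add_zero, ← hL]
      rw [h1]
      have h2 : 0 ≤ (1 + T) * (2 * C₁ * Real.log w) / H' * (2 / (l : ℝ)) := by positivity
      have h3 : (1 - Real.log l / (υ * L)) * (2 / (l : ℝ)) * 1 =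
          2 / (l : ℝ) * (1 - Real.log l / (υ * L)) := by ring
      rw [h3]
      linarith
  -- the four sums
  have hs1 : ∑ l ∈ Q, (if (l : ℝ) ≤ R then
      2 * Real.log l / l * (1 - Real.log l / L / υ) / H' else 0) ≤
      (L * (ρ * (1 - ρ / (2 * υ) + ρ / (2 * υ * J))) + 2 * CG * J) / H' := by
    rw [← Finset.sum_filter, ← Finset.sum_div]
    refine div_le_div_of_nonneg_right ?_ hH'.le
    refine le_trans ?_ (N2_S1 hG hCG X hX ρ υ hρ hρυ J hJ)
    refine Finset.sum_le_sum_of_subset_of_nonneg ?_ ?_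
    · intro l hl
      rw [Finset.mem_filter] at hl
      obtain ⟨h1, h2, h3⟩ := hQmem l hl.1
      rw [N2_mem hR0.le]
      refine ⟨h1, ?_, hl.2⟩
      rw [Real.rpow_zero]
      exact_mod_cast h1.1.one_lt
    · intro l hl _
      rw [N2_mem hR0.le] at hl
      have hl1 : (1 : ℝ) ≤ l := by exact_mod_cast hl.1.1.one_le
      have hlog := Real.log_nonneg hl1
      have h1 := Real.log_le_log (zero_lt_one.trans_le hl1) hl.2.2
      rw [hlogR] at h1
      have h2 : 0 ≤ 1 - Real.log l / L / υ := by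
        rw [sub_nonneg, div_le_one hυ, div_le_iff₀ hL0]
        nlinarith
      positivity
  have hs2 : ∑ l ∈ Q, (if (l : ℝ) ≤ (X : ℝ) ^ δ then T * (2 * Real.log l / l) / H' else 0) ≤
      T * (δ * L + CG) / H' := by
    rw [← Finset.sum_filter, ← Finset.sum_div, ← Finset.mul_sum]
    refine div_le_div_of_nonneg_right (mul_le_mul_of_nonneg_left ?_ hT) hH'.le
    have hδ1 : 1 ≤ (X : ℝ) ^ δ := Real.one_le_rpow hX1.le hδ.le
    have h1 := (abs_le.mp (hG ((X : ℝ) ^ δ) hδ1)).2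
    rw [Real.log_rpow hX0] at h1
    have h2 : ∑ l ∈ Q.filter (fun l : ℕ => (l : ℝ) ≤ (X : ℝ) ^ δ), 2 * Real.log l / l ≤
        ∑ l ∈ (Icc 1 ⌊(X : ℝ) ^ δ⌋₊).filter (fun l => l.Prime ∧ (l % 8 = 1 ∨ l % 8 = 7)),
          2 * Real.log l / l := by
      refine Finset.sum_le_sum_of_subset_of_nonneg ?_ ?_
      · intro l hl
        rw [Finset.mem_filter] at hl
        obtain ⟨h1, h2, h3⟩ := hQmem l hl.1
        rw [Finset.mem_filter, Finset.mem_Icc, Nat.le_floor_iff (by linarith)]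
        exact ⟨⟨h1.1.one_le, hl.2⟩, h1⟩
      · intro l hl _
        rw [Finset.mem_filter] at hl
        have hl1 : (1 : ℝ) ≤ l := by exact_mod_cast hl.2.1.one_le
        have hlog := Real.log_nonneg hl1
        positivity
    linarith
  have hs3 : ∑ l ∈ Q, (1 + T) * (2 * C₁ * Real.log w) / H' * (2 / (l : ℝ)) ≤
      2 * C₁ * C * (1 + T) * Real.log L * (Real.log L + C₂) / H' := by
    rw [← Finset.mul_sum]
    have h1 := (abs_le.mp (hG2 w z (by omega) hwz)).2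
    rw [hlogz] at h1
    have h2 : Real.log (υ * L) ≤ Real.log L :=
      Real.log_le_log (by positivity) (by nlinarith)
    have h3 : 0 ≤ Real.log (Real.log w) := Real.log_nonneg hlogw1
    have h4 : C₂ / Real.log w ≤ C₂ := div_le_self hC₂.le hlogw1
    have h5 : ∑ l ∈ Q, 2 / (l : ℝ) ≤ Real.log L + C₂ := by linarith
    have h6 : (1 + T) * (2 * C₁ * Real.log w) / H' ≤
        (1 + T) * (2 * C₁ * (C * Real.log L)) / H' := by
      gcongr
    calc (1 + T) * (2 * C₁ * Real.log w) / H' * ∑ l ∈ Q, 2 / (l : ℝ)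
        ≤ (1 + T) * (2 * C₁ * (C * Real.log L)) / H' * (Real.log L + C₂) :=
          mul_le_mul h6 h5 (Finset.sum_nonneg fun l _ => by positivity) (by positivity)
      _ = _ := by ring
  have hs4 : ∑ l ∈ Q, (if (l : ℝ) ≤ R then 0 else 2 / (l : ℝ) * (1 - Real.log l / (υ * L))) ≤
      Real.log (υ / ρ) + (υ - ρ) / (ρ * J) - (υ - ρ) / υ + 2 * CG * J / ρ / L := by
    have e : ∀ l ∈ Q, (if (l : ℝ) ≤ R then 0 else 2 / (l : ℝ) * (1 - Real.log l / (υ * L))) =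
        (if ¬ (l : ℝ) ≤ R then 2 / (l : ℝ) * (1 - Real.log l / (υ * L)) else 0) := by
      intro l _
      rw [ite_not]
    rw [Finset.sum_congr rfl e, ← Finset.sum_filter]
    refine le_trans ?_ (N2_S4 hG hCG X hX ρ υ hρ hρυ J hJ)
    refine Finset.sum_le_sum_of_subset_of_nonneg ?_ ?_
    · intro l hl
      rw [Finset.mem_filter] at hl
      obtain ⟨h1, h2, h3⟩ := hQmem l hl.1
      rw [N2_mem hz0.le]
      exact ⟨h1, not_le.mp hl.2, h3⟩
    · intro l hl _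
      rw [N2_mem hz0.le] at hl
      have hl1 : (1 : ℝ) ≤ l := by exact_mod_cast hl.1.1.one_le
      have h1 := Real.log_le_log (by linarith) hl.2.2
      rw [hlogz] at h1
      have h2 : 0 ≤ 1 - Real.log l / (υ * Real.log X) := by
        rw [sub_nonneg, div_le_one (by positivity)]; exact h1
      positivity
  -- conclusion
  have hfin : ∑ l ∈ Q, vv υ T δ X l * (2 / (l : ℝ)) *
      (if (l : ℝ) ≤ R then (Real.log l + 2 * C₁ * Real.log w) / H' else 1) ≤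
      (L * (ρ * (1 - ρ / (2 * υ) + ρ / (2 * υ * J) + T * δ / ρ)) + (2 * CG * J + T * CG)) / H' +
      2 * C₁ * C * (1 + T) * Real.log L * (Real.log L + C₂) / H' +
      (Real.log (υ / ρ) + (υ - ρ) / (ρ * J) - (υ - ρ) / υ + 2 * CG * J / ρ / L) := by
    refine (Finset.sum_le_sum hpt).trans ?_
    rw [Finset.sum_add_distrib, Finset.sum_add_distrib, Finset.sum_add_distrib]
    have e : (L * (ρ * (1 - ρ / (2 * υ) + ρ / (2 * υ * J) + T * δ / ρ)) +
        (2 * CG * J + T * CG)) / H' =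
        (L * (ρ * (1 - ρ / (2 * υ) + ρ / (2 * υ * J))) + 2 * CG * J) / H' +
          T * (δ * L + CG) / H' := by
      rw [← add_div]
      congr 1
      field_simp
      ring
    rw [e]
    linarith
  calc ∑ l ∈ Q, vv υ T δ X l * (2 / (l : ℝ)) *
        (Gs (Q.erase l) R - Gs (Q.erase l) (R / l))
      ≤ ∑ l ∈ Q, vv υ T δ X l * (2 / (l : ℝ)) *
        (g * (if (l : ℝ) ≤ R then (Real.log l + 2 * C₁ * Real.log w) / H' else 1)) := by
        refine Finset.sum_le_sum fun l hl => ?_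
        refine mul_le_mul_of_nonneg_left (hD l hl) ?_
        have := hvv0 l hl
        positivity
    _ = (∑ l ∈ Q, vv υ T δ X l * (2 / (l : ℝ)) *
        (if (l : ℝ) ≤ R then (Real.log l + 2 * C₁ * Real.log w) / H' else 1)) * g := by
        rw [Finset.sum_mul]
        exact Finset.sum_congr rfl fun l _ => by ring
    _ ≤ _ := mul_le_mul_of_nonneg_right hfin hg0

theorem N2 (hN1 : N1_stmt) (hG1 : G1_stmt) (hG2 : G2_stmt) : N2_stmt := by
  intro ρ υ T κ hρ hρυ hυ1 hT hκ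
  obtain ⟨C₁, hC₁, hN⟩ := hN1
  obtain ⟨CG, hCG, hG⟩ := hG1
  obtain ⟨C₂, hC₂, hG2'⟩ := hG2
  have hυ : 0 < υ := hρ.trans hρυ
  obtain ⟨J, hJ⟩ := exists_nat_gt ((4 / κ) * (ρ / (2 * υ) + (υ - ρ) / ρ))
  have hq : 0 < ρ / (2 * υ) + (υ - ρ) / ρ :=
    add_pos (by positivity) (div_pos (by linarith) hρ)
  have hJ0 : (0 : ℝ) < J := lt_trans (by positivity) hJ
  have hJn : 0 < J := by exact_mod_cast hJ0
  refine ⟨min ρ (κ * ρ / (4 * (T + 1))), lt_min hρ (by positivity), ?_⟩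
  intro δ hδ hδ₀ C hC
  have hδρ : δ ≤ ρ := hδ₀.trans (min_le_left _ _)
  have hδκ : δ ≤ κ * ρ / (4 * (T + 1)) := hδ₀.trans (min_le_right _ _)
  obtain ⟨L₀, hL₀⟩ := N2_limit ρ (1 - ρ / (2 * υ) + ρ / (2 * υ * J) + T * δ / ρ)
    (2 * CG * J + T * CG) (C₁ * C) (2 * C₁ * C * (1 + T)) C₂
    (Real.log (υ / ρ) + (υ - ρ) / (ρ * J) - (υ - ρ) / υ) (2 * CG * J / ρ) (κ / 2) hρ (by positivity)
  refine ⟨⌈Real.exp (max L₀ 3)⌉₊, fun X hX => ?_⟩
  have hX' : Real.exp (max L₀ 3) ≤ X := (Nat.le_ceil _).trans (by exact_mod_cast hX)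
  have hX0 : (0 : ℝ) < X := (Real.exp_pos _).trans_le hX'
  have hLX : max L₀ 3 ≤ Real.log X := (Real.le_log_iff_exp_le hX0).mpr hX'
  obtain ⟨hH, hlim⟩ := hL₀ (Real.log X) ((le_max_left _ _).trans hLX)
  have h1 := N2_main C₁ CG C₂ hC₁ hCG hC₂ hG hG2' hN ρ υ T δ hρ hρυ hυ1 hT hδ hδρ J C hJn hC X
    ((le_max_right _ _).trans hLX) hH
  refine h1.trans (mul_le_mul_of_nonneg_right ?_ ?_)
  · refine hlim.trans ?_
    have e1 : T * δ / ρ ≤ κ / 4 := by
      have h2 : T * δ ≤ T * (κ * ρ / (4 * (T + 1))) := mul_le_mul_of_nonneg_left hδκ hT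
      have h3 : T * (κ * ρ / (4 * (T + 1))) ≤ κ * ρ / 4 := by
        rw [mul_div_assoc', div_le_div_iff₀ (by positivity) (by norm_num)]
        nlinarith [mul_pos hκ hρ]
      rw [div_le_iff₀ hρ]
      linarith
    have e2 : ρ / (2 * υ * J) + (υ - ρ) / (ρ * J) ≤ κ / 4 := by
      have h2 : ρ / (2 * υ * J) + (υ - ρ) / (ρ * J) = (ρ / (2 * υ) + (υ - ρ) / ρ) / J := by
        field_simp
      rw [h2, div_le_iff₀ hJ0]
      have h3 : (4 / κ) * (ρ / (2 * υ) + (υ - ρ) / ρ) * (κ / 4) =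
          ρ / (2 * υ) + (υ - ρ) / ρ := by field_simp
      have h4 := mul_le_mul_of_nonneg_right hJ.le (show 0 ≤ κ / 4 by positivity)
      rw [h3] at h4
      linarith
    have e3 : (υ - ρ) / υ = 1 - ρ / υ := by field_simp
    have e4 : ρ / υ = 2 * (ρ / (2 * υ)) := by field_simp
    rw [e3, e4]
    linarith
  · refine N2_Gs_nonneg _ ?_ _
    intro l hl
    rw [N2_Qmem (by positivity)] at hl
    exact hl.1.1.two_le

end GD
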