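import Pool.Agent.helper65.GD.SpecC

/-! # MP_ea335c, row NBN -/

set_option autoImplicit false

namespace Pool.Agent.GD

open Finset Metric Filter Topology

/-- coefficients of a product -/
lemma NBN_coeff (a b : ℕ → ℂ) (n : ℕ) :
    PowerSeries.coeff n (PowerSeries.mk a * PowerSeries.mk b) =
      ∑ m ∈ range (n + 1), a m * b (n - m) := by
  rw [PowerSeries.coeff_mul, Finset.Nat.sum_antidiagonal_eq_sum_range_succ_mk]
  simp [PowerSeries.coeff_mk]

/-- the operator `z d/dz` -/
lemma NBN_der (a b : ℕ → ℂ) (n : ℕ) :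
    (n : ℂ) * ∑ m ∈ range (n + 1), a m * b (n - m) =
      ∑ m ∈ range (n + 1), ((m : ℂ) * a m) * b (n - m) +
        ∑ m ∈ range (n + 1), a m * (((n - m : ℕ) : ℂ) * b (n - m)) := by
  rw [Finset.mul_sum, ← Finset.sum_add_distrib]
  apply Finset.sum_congr rfl
  intro m hm
  have h1 : m ≤ n := Nat.le_of_lt_succ (Finset.mem_range.1 hm)
  rw [Nat.cast_sub h1]
  ring

theorem NBN : NBN_stmt := by
  intro p μ b f G H hG hGH hf
  set M : ℕ → ℂ := fun m => if m = 0 then 0 else μ m with hM
  have hrec : ∀ k : ℕ, (k : ℂ) * G k = 2 * p * ∑ m ∈ range (k + 1), G m * M (k - m) := by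
    intro k
    rw [hG.2 k, Finset.sum_range_succ, Nat.sub_self]
    have h1 : M 0 = 0 := by simp [hM]
    rw [h1, mul_zero, add_zero]
    congr 1
    apply Finset.sum_congr rfl
    intro m hm
    have h2 : k - m ≠ 0 := by have := Finset.mem_range.1 hm; omega
    simp only [hM, if_neg h2]
    ring
  have hDD : ∀ q : ℕ, DD p μ b q = q * b q + 2 * p * ∑ m ∈ range (q + 1), b m * M (q - m) := by
    intro q
    unfold DD
    rw [Finset.sum_range_succ, Nat.sub_self]
    have h1 : M 0 = 0 := by simp [hM]
    rw [h1, mul_zero, add_zero]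
    congr 2
    apply Finset.sum_congr rfl
    intro m hm
    have h2 : q - m ≠ 0 := by have := Finset.mem_range.1 hm; omega
    simp only [hM, if_neg h2]
    ring
  -- power series
  have hGs : PowerSeries.mk (fun k => (k : ℂ) * G k) =
      PowerSeries.C (2 * (p : ℂ)) * (PowerSeries.mk G * PowerSeries.mk M) := by
    ext k
    rw [PowerSeries.coeff_mk, PowerSeries.coeff_C_mul, NBN_coeff, hrec k]
  have hDs : PowerSeries.mk (fun q => DD p μ b q) = PowerSeries.mk (fun k => (k : ℂ) * b k) +
      PowerSeries.C (2 * (p : ℂ)) * (PowerSeries.mk b * PowerSeries.mk M) := by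
    ext k
    rw [PowerSeries.coeff_mk, map_add, PowerSeries.coeff_C_mul, NBN_coeff, PowerSeries.coeff_mk,
      hDD k]
  have hfs : PowerSeries.mk (fun n => (n : ℂ) * f n) =
      PowerSeries.mk (fun k => (k : ℂ) * b k) * PowerSeries.mk G +
        PowerSeries.mk b * PowerSeries.mk (fun k => (k : ℂ) * G k) := by
    ext k
    rw [PowerSeries.coeff_mk, map_add, NBN_coeff, NBN_coeff, hf k, NBN_der]
  have hmain : PowerSeries.mk (fun n => (n : ℂ) * f n) =
      PowerSeries.mk (fun q => DD p μ b q) * PowerSeries.mk G := by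
    rw [hfs, hDs, hGs]
    ring
  have hone : PowerSeries.mk G * PowerSeries.mk H = 1 := by
    ext k
    rw [NBN_coeff, hGH k, PowerSeries.coeff_one]
  have hinv : PowerSeries.mk (fun q => DD p μ b q) =
      PowerSeries.mk (fun n => (n : ℂ) * f n) * PowerSeries.mk H := by
    rw [hmain, mul_assoc, hone, mul_one]
  constructor
  · intro n
    have h1 := congrArg (PowerSeries.coeff n) hmain
    rwa [PowerSeries.coeff_mk, NBN_coeff] at h1
  · intro q
    have h1 := congrArg (PowerSeries.coeff q) hinv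
    rw [PowerSeries.coeff_mk, NBN_coeff] at h1
    rw [h1]
    apply Finset.sum_congr rfl
    intro j _
    ring

end Pool.Agent.GD
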