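import Pool.Agent.helper65.GD.Spec

/-! # MP_ea335c, row NUM -/

set_option autoImplicit false

namespace Pool.Agent.GD

open Finset Metric Filter Topology

lemma NUM_cc (p : ℕ) (hp : 1 ≤ p) (k : ℕ) :
    cc (2 * p) k * (((2 * p - 1).factorial : ℝ) * (k.factorial : ℝ)) =
      ((2 * p + k - 1).factorial : ℝ) := by
  induction k with
  | zero => simp [cc]
  | succ k ih =>
    have h1 : cc (2 * p) (k + 1) = cc (2 * p) k * ((2 * p + k) / (k + 1)) := by
      unfold cc
      rw [Finset.prod_range_succ]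
    have h2 : 2 * p + (k + 1) - 1 = (2 * p + k - 1) + 1 := by omega
    have h3 : ((2 * p + k - 1 : ℕ) : ℝ) + 1 = 2 * p + k := by
      have h4 : ((2 * p + k - 1 : ℕ) : ℝ) = ((2 * p + k : ℕ) : ℝ) - 1 := by
        rw [Nat.cast_sub (by omega), Nat.cast_one]
      rw [h4]
      push_cast
      ring
    have h5 : (k : ℝ) + 1 ≠ 0 := Nat.cast_add_one_ne_zero k
    rw [h1, h2, Nat.factorial_succ, Nat.factorial_succ, Nat.cast_mul, Nat.cast_mul, ← ih,
      Nat.cast_add, Nat.cast_add, Nat.cast_one, h3]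
    field_simp

lemma NUM_AA (p k i : ℕ) (hp : 1 ≤ p) (hk : 1 ≤ k) (hi : i < p) :
    AA p (p + k) (p - i) = (((p : ℝ) - i) * (2 * p + k) * k * cc (2 * p) k * (2 * p).choose i) /
      (p * ((k + i) * (2 * p + k - i))) := by
  have hj : ((p - i : ℕ) : ℝ) = (p : ℝ) - i := Nat.cast_sub (by omega)
  have hpi : p - (p - i) = i := by omega
  have hpi2 : p + (p - i) = 2 * p - i := by omega
  have hk1 : p + k - p - 1 = k - 1 := by omega
  have hnp : p + k + p = (2 * p + k - 1) + 1 := by omega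
  have hnp2 : ((2 * p + k - 1 : ℕ) : ℝ) + 1 = 2 * p + k := by
    rw [Nat.cast_sub (by omega), Nat.cast_one]
    push_cast
    ring
  have h1 := NUM_cc p hp k
  have hkf : (k.factorial : ℝ) = k * ((k - 1).factorial : ℝ) := by
    rw [← Nat.mul_factorial_pred (by omega : k ≠ 0), Nat.cast_mul]
  have h2 : ((2 * p).choose i : ℝ) * ((i.factorial : ℝ) * ((2 * p - i).factorial : ℝ)) =
      2 * p * ((2 * p - 1).factorial : ℝ) := by
    have h3 := Nat.choose_mul_factorial_mul_factorial (show i ≤ 2 * p by omega)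
    have h4 := Nat.mul_factorial_pred (show 2 * p ≠ 0 by omega)
    rw [← h4] at h3
    have h5 : (((2 * p).choose i * i.factorial * (2 * p - i).factorial : ℕ) : ℝ) =
      ((2 * p * (2 * p - 1).factorial : ℕ) : ℝ) := by rw [h3]
    push_cast at h5
    linear_combination h5
  rw [hkf] at h1
  unfold AA
  rw [hpi, hpi2, hk1, hnp, Nat.factorial_succ, hj]
  push_cast
  rw [hnp2]
  have hp0 : (0 : ℝ) < p := by exact_mod_cast hp
  have hk0 : (0 : ℝ) < k := by exact_mod_cast hk
  have hi0 : (0 : ℝ) ≤ i := Nat.cast_nonneg i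
  have hip : (i : ℝ) < p := by exact_mod_cast hi
  have f1 : (0 : ℝ) < (i.factorial : ℝ) := by exact_mod_cast Nat.factorial_pos i
  have f2 : (0 : ℝ) < ((2 * p - i).factorial : ℝ) := by exact_mod_cast Nat.factorial_pos _
  have f3 : (0 : ℝ) < ((k - 1).factorial : ℝ) := by exact_mod_cast Nat.factorial_pos _
  have g1 : (0 : ℝ) < k + i := by linarith
  have g2 : (0 : ℝ) < 2 * p + k - i := by linarith
  have e1 : ((p : ℝ) + k) ^ 2 - ((p : ℝ) - i) ^ 2 = (k + i) * (2 * p + k - i) := by ring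
  rw [e1, div_eq_div_iff (by positivity) (by positivity)]
  linear_combination (-2 * ((p : ℝ) - i) * (2 * p + k) * p * ((k + i) * (2 * p + k - i))) * h1 -
    (((p : ℝ) - i) * (2 * p + k) * k * cc (2 * p) k * ((k - 1).factorial : ℝ) *
      ((k + i) * (2 * p + k - i))) * h2

theorem NUM : NUM_stmt := by
  intro p k i hp hk hi
  have h1 := NUM_AA p k i hp hk hi
  have hp0 : (0 : ℝ) < p := by exact_mod_cast hp
  have hk0 : (0 : ℝ) < k := by exact_mod_cast hk
  have hi0 : (0 : ℝ) ≤ i := Nat.cast_nonneg i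
  have hip : (i : ℝ) < p := by exact_mod_cast hi
  have g1 : (0 : ℝ) < k + i := by linarith
  have g2 : (0 : ℝ) < 2 * p + k - i := by linarith
  have g3 : (0 : ℝ) < p + k := by linarith
  rw [h1]
  constructor
  · field_simp
  · field_simp

end Pool.Agent.GD
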