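import Pool.Agent.helper65.GD.SpecC

/-! # MP_ea335c, row OMG -/

set_option autoImplicit false

namespace Pool.Agent.GD

open Finset Metric Filter Topology

lemma OMG_cc (s : ℝ) (m : ℕ) : (m : ℝ) * cc s m = s * ∑ l ∈ range m, cc s l := by
  induction m with
  | zero => simp
  | succ m ih =>
    rw [Finset.sum_range_succ, mul_add, ← ih]
    unfold cc
    rw [Finset.prod_range_succ]
    have h : ((m : ℝ) + 1) ≠ 0 := by positivity
    push_cast
    field_simp
    ring

lemma OMG_cc_nonneg (s : ℝ) (hs : 0 ≤ s) (m : ℕ) : 0 ≤ cc s m :=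
  Finset.prod_nonneg fun q _ => by positivity

lemma OMG_G (p : ℕ) (μ G : ℕ → ℂ) (hμ : ∀ m, ‖μ m‖ ≤ 1) (hG : Rec (2 * p) μ G) (m : ℕ) :
    ‖G m‖ ≤ cc (2 * p) m := by
  induction m using Nat.strong_induction_on with
  | _ m ih =>
    rcases Nat.eq_zero_or_pos m with rfl | hm
    · rw [hG.1]
      simp [cc]
    · have hm0 : (0 : ℝ) < m := by exact_mod_cast hm
      have h1 := congrArg norm (hG.2 m)
      rw [norm_mul, Complex.norm_natCast, norm_mul] at h1
      have e1 : ‖(2 : ℂ) * (p : ℂ)‖ = 2 * (p : ℝ) := by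
        rw [norm_mul, Complex.norm_natCast]
        simp
      rw [e1] at h1
      have h2 : ‖∑ l ∈ range m, μ (m - l) * G l‖ ≤ ∑ l ∈ range m, cc (2 * p) l := by
        apply norm_sum_le_of_le
        intro l hl
        rw [norm_mul]
        have h3 := ih l (Finset.mem_range.1 hl)
        calc ‖μ (m - l)‖ * ‖G l‖ ≤ 1 * ‖G l‖ := by gcongr; exact hμ _
          _ ≤ cc (2 * p) l := by rw [one_mul]; exact h3
      have h4 : (m : ℝ) * ‖G m‖ ≤ m * cc (2 * p) m := by
        rw [h1, OMG_cc]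
        gcongr
      exact le_of_mul_le_mul_left h4 hm0

theorem OMG : OMG_stmt := by
  intro p k i N v x μ G hp hk hi hat hμ hG
  obtain ⟨hv0, hv1, hx⟩ := hat
  have hp0 : (0 : ℝ) < p := by exact_mod_cast hp
  have hk0 : (0 : ℝ) < k := by exact_mod_cast hk
  have hip : (i : ℝ) ≤ p := by exact_mod_cast hi
  have hi0 : (0 : ℝ) ≤ i := Nat.cast_nonneg _
  have hpc : (p : ℂ) ≠ 0 := by
    have : p ≠ 0 := by omega
    exact_mod_cast this
  set E := ∑ l, (v l : ℂ) * pol G k (x l) with hE
  have hv1' : ∑ l, (v l : ℂ) = 1 := by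
    have := congrArg (fun r : ℝ => (r : ℂ)) hv1
    push_cast at this
    exact this
  have hEG : E - G k = ∑ l, (v l : ℂ) * (2 * ∑ m ∈ range k, x l ^ (k - m) * G m) := by
    have h1 : G k = ∑ l, (v l : ℂ) * G k := by rw [← Finset.sum_mul, hv1', one_mul]
    rw [hE]
    conv_lhs => rw [h1]
    rw [← Finset.sum_sub_distrib]
    apply Finset.sum_congr rfl
    intro l _
    unfold pol
    ring
  have hbound : ‖E - G k‖ ≤ (k : ℝ) / p * cc (2 * p) k := by
    rw [hEG]
    have h2 : ∀ l ∈ (univ : Finset (Fin N)),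
        ‖(v l : ℂ) * (2 * ∑ m ∈ range k, x l ^ (k - m) * G m)‖ ≤ v l * ((k : ℝ) / p * cc (2 * p) k) := by
      intro l _
      rw [norm_mul, Complex.norm_real, Real.norm_of_nonneg (hv0 l), norm_mul]
      apply mul_le_mul_of_nonneg_left _ (hv0 l)
      have h3 : ‖∑ m ∈ range k, x l ^ (k - m) * G m‖ ≤ ∑ m ∈ range k, cc (2 * p) m := by
        apply norm_sum_le_of_le
        intro m _
        rw [norm_mul, norm_pow, hx l, one_pow, one_mul]
        exact OMG_G p μ G hμ hG m
      have h4 : 2 * ∑ m ∈ range k, cc (2 * p) m = (k : ℝ) / p * cc (2 * p) k := by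
        have h5 := OMG_cc (2 * p) k
        field_simp
        linarith
      rw [← h4]
      have h6 : ‖(2 : ℂ)‖ = 2 := by simp
      rw [h6]
      gcongr
    refine (norm_sum_le_of_le _ h2).trans (le_of_eq ?_)
    rw [← Finset.sum_mul, hv1, one_mul]
  have hcoef : ∀ (α β : ℝ) (z : ℂ), 0 ≤ α → 0 ≤ β → z = (α : ℂ) * (E - G k) + (β : ℂ) * G k →
      ‖z‖ ≤ β * ‖G k‖ + α * ((k : ℝ) / p * cc (2 * p) k) := by
    intro α β z hα hβ hz
    rw [hz]
    refine (norm_add_le _ _).trans ?_
    rw [norm_mul, norm_mul, Complex.norm_real, Complex.norm_real, Real.norm_of_nonneg hα,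
      Real.norm_of_nonneg hβ, add_comm]
    gcongr
  constructor
  · have h1 := hcoef ((k : ℝ) + i) ((k : ℝ) * (2 * p - i) / p)
      (((k : ℂ) + i) * E - (p - (p + k) * (p - i) / p) * G k) (by positivity)
      (div_nonneg (mul_nonneg hk0.le (by linarith)) hp0.le) (by
        push_cast
        field_simp
        ring)
    refine h1.trans (le_of_eq ?_)
    ring
  · have h1 := hcoef (2 * (p : ℝ) + k - i) ((k : ℝ) * i / p)
      ((2 * (p : ℂ) + k - i) * E - (p + (p + k) * (p - i) / p) * G k) (by linarith)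
      (by positivity) (by
        push_cast
        field_simp
        ring)
    refine h1.trans (le_of_eq ?_)
    ring

end Pool.Agent.GD
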