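import Pool.Agent.helper65.GD.Spec

/-! # MP_ea335c, row PBB -/

set_option autoImplicit false

namespace Pool.Agent.GD

open Finset Metric Filter Topology

theorem PBB (hPAA : PAA_stmt) : PBB_stmt := by
  intro N s x S μ G hS hG
  set G' : ℕ → ℂ := fun k => ∑ a ∈ ix N k, (wt s a : ℂ) * mon x a with hG'
  have h0 : G' 0 = 1 := by
    show ∑ a ∈ ix N 0, (wt s a : ℂ) * mon x a = 1
    have e : ix N 0 = {0} := by
      unfold ix
      exact Finset.finsuppAntidiag_zero univ
    rw [e, Finset.sum_singleton]
    unfold wt mon cc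
    simp
  have hrec : ∀ k : ℕ, (k : ℂ) * G' k = S * ∑ m ∈ range k, μ (k - m) * G' m := by
    intro k
    have h1 : (k : ℂ) * G' k = ∑ l, ∑ a ∈ ix N k, (wt s a : ℂ) * (a l : ℂ) * mon x a := by
      rw [Finset.sum_comm]
      show (k : ℂ) * ∑ a ∈ ix N k, (wt s a : ℂ) * mon x a = _
      rw [Finset.mul_sum]
      apply Finset.sum_congr rfl
      intro a ha
      have h2 : ∑ l, a l = k := by
        unfold ix at ha
        exact (Finset.mem_finsuppAntidiag.1 ha).1
      have h3 : (k : ℂ) = ∑ l, (a l : ℂ) := by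
        rw [← h2, Nat.cast_sum]
      rw [h3, Finset.sum_mul]
      apply Finset.sum_congr rfl
      intro l _
      ring
    rw [h1, Finset.sum_congr rfl (fun l _ => hPAA N s x l k)]
    have h4 : ∀ l : Fin N, (s l : ℂ) * ∑ m ∈ range k, x l ^ (k - m) *
        ∑ a ∈ ix N m, (wt s a : ℂ) * mon x a =
        ∑ m ∈ range k, (s l : ℂ) * x l ^ (k - m) * G' m := by
      intro l
      rw [Finset.mul_sum]
      apply Finset.sum_congr rfl
      intro m _
      rw [← mul_assoc]
    rw [Finset.sum_congr rfl (fun l _ => h4 l), Finset.sum_comm, Finset.mul_sum]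
    apply Finset.sum_congr rfl
    intro m _
    rw [← Finset.sum_mul, ← hS, mul_assoc]
  intro k
  induction k using Nat.strong_induction_on with
  | _ k ih =>
    rcases Nat.eq_zero_or_pos k with hk | hk
    · subst hk
      rw [hG.1]
      exact h0.symm
    · have hk0 : (k : ℂ) ≠ 0 := Nat.cast_ne_zero.2 (by omega)
      apply mul_left_cancel₀ hk0
      rw [hG.2 k]
      show _ = (k : ℂ) * G' k
      rw [hrec k]
      congr 1
      apply Finset.sum_congr rfl
      intro m hm
      rw [ih m (Finset.mem_range.1 hm)]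

end Pool.Agent.GD
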