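import Pool.Agent.helper65.GD.Spec

/-! # MP_ea335c, row PCC -/

set_option autoImplicit false

namespace Pool.Agent.GD

open Finset Metric Filter Topology

lemma PCC_rec (S : ℝ) (k : ℕ) : (k : ℝ) * cc S k = S * ∑ m ∈ range k, cc S m := by
  induction k with
  | zero => simp
  | succ k ih =>
    have h1 : cc S (k + 1) = cc S k * ((S + k) / (k + 1)) := by
      unfold cc
      rw [Finset.prod_range_succ]
    have h5 : (k : ℝ) + 1 ≠ 0 := Nat.cast_add_one_ne_zero k
    rw [Finset.sum_range_succ, mul_add, ← ih, h1]
    push_cast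
    field_simp
    ring

theorem PCC (hPBB : PBB_stmt) : PCC_stmt := by
  intro N s k
  have h1 := hPBB N s (fun _ => 1) ((∑ l, s l : ℝ) : ℂ) (fun _ => 1)
    (fun k => (cc (∑ l, s l) k : ℂ)) (by
      intro m
      simp only [one_pow, mul_one]
      rw [Complex.ofReal_sum]) (by
      refine ⟨?_, ?_⟩
      · simp [cc]
      · intro k
        have h2 := PCC_rec (∑ l, s l) k
        simp only [one_mul]
        rw [← Complex.ofReal_sum, ← Complex.ofReal_mul, ← h2]
        push_cast
        ring) k
  have h2 : ∀ a : Fin N →₀ ℕ, mon (fun _ => 1) a = 1 := by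
    intro a
    unfold mon
    simp
  simp only [h2, mul_one] at h1
  rw [← Complex.ofReal_sum] at h1
  exact (Complex.ofReal_injective h1).symm

end Pool.Agent.GD
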