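import Pool.Agent.helper65.GD.SpecC

/-! # MP_ea335c, row REF -/

set_option autoImplicit false

namespace Pool.Agent.GD

open Finset Metric Filter Topology

/-- the moments with an arbitrary (possibly negative) index -/
noncomputable def REF_k {N : ℕ} (w : Fin N → ℝ) (x : Fin N → ℂ) (a q : ℕ) : ℂ :=
  ∑ l, (w l : ℂ) * (x l ^ a * (starRingEnd ℂ) (x l) ^ q)

lemma REF_conj {z : ℂ} (hz : ‖z‖ = 1) : z * (starRingEnd ℂ) z = 1 := by
  rw [Complex.mul_conj, Complex.normSq_eq_norm_sq, hz]
  simp

lemma REF_k_le {N : ℕ} (w : Fin N → ℝ) (x : Fin N → ℂ) (hx : ∀ l, ‖x l‖ = 1) (a q : ℕ) (h : q ≤ a) :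
    REF_k w x a q = mom w x (a - q) := by
  unfold REF_k mom
  apply Finset.sum_congr rfl
  intro l _
  obtain ⟨c, rfl⟩ := Nat.exists_eq_add_of_le h
  rw [Nat.add_sub_cancel_left, pow_add, mul_comm (x l ^ q), mul_assoc (x l ^ c), ← mul_pow,
    REF_conj (hx l), one_pow, mul_one]

lemma REF_k_ge {N : ℕ} (w : Fin N → ℝ) (x : Fin N → ℂ) (hx : ∀ l, ‖x l‖ = 1) (a q : ℕ) (h : a ≤ q) :
    REF_k w x a q = (starRingEnd ℂ) (mom w x (q - a)) := by
  unfold REF_k mom
  rw [map_sum]
  apply Finset.sum_congr rfl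
  intro l _
  obtain ⟨c, rfl⟩ := Nat.exists_eq_add_of_le h
  rw [Nat.add_sub_cancel_left, pow_add, ← mul_assoc (x l ^ a), ← mul_pow, REF_conj (hx l), one_pow,
    one_mul, map_mul, map_pow, Complex.conj_ofReal]

lemma REF_rhs (p N : ℕ) (w : Fin N → ℝ) (x : Fin N → ℂ) (b : ℕ → ℂ) (m : ℕ) :
    ∑ l, (w l : ℂ) * tt p b (x l) * x l ^ m = ∑ q ∈ range (2 * p), b q * REF_k w x (p + m) q := by
  unfold tt REF_k
  simp only [Finset.mul_sum, Finset.sum_mul]
  rw [Finset.sum_comm]
  apply Finset.sum_congr rfl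
  intro q _
  apply Finset.sum_congr rfl
  intro l _
  rw [pow_add]
  ring

theorem REF : REF_stmt := by
  intro p N w x b m hp hat hb
  obtain ⟨hw0, hw1, hx⟩ := hat
  obtain ⟨hb0, hb1, hb2⟩ := hb
  have hmom0 : mom w x 0 = 1 := by
    unfold mom
    simp only [pow_zero, mul_one]
    have := congrArg (fun r : ℝ => (r : ℂ)) hw1
    push_cast at this
    exact this
  rw [REF_rhs]
  have hD1 : DD p (mom w x) b (p + m) = ((p + m : ℕ) : ℂ) * b (p + m) +
      2 * p * ∑ r ∈ range (p + m), b r * REF_k w x (p + m) r := by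
    unfold DD
    congr 2
    apply Finset.sum_congr rfl
    intro r hr
    rw [REF_k_le w x hx (p + m) r (Finset.mem_range.1 hr).le]
    ring
  by_cases hm : m ≤ p
  · rw [if_pos hm]
    have hbpm : (starRingEnd ℂ) (b (p - m)) = b (p + m) := by
      rw [← hb2 (p - m) (by omega)]
      congr 1
      omega
    have hD2 : (starRingEnd ℂ) (DD p (mom w x) b (p - m)) = ((p - m : ℕ) : ℂ) * b (p + m) +
        2 * p * ∑ s ∈ range (p - m), b (p + m + (s + 1)) * REF_k w x (p + m) (p + m + (s + 1)) := by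
      unfold DD
      rw [map_add, map_mul, map_mul, map_mul, hbpm, map_sum, Complex.conj_natCast,
        Complex.conj_natCast, ← Finset.sum_range_reflect]
      have h2 : (starRingEnd ℂ) (2 : ℂ) = 2 := by
        have := Complex.conj_ofReal 2
        push_cast at this
        exact this
      rw [h2]
      congr 2
      apply Finset.sum_congr rfl
      intro s hs
      have hs' := Finset.mem_range.1 hs
      rw [map_mul, REF_k_ge w x hx (p + m) (p + m + (s + 1)) (by omega), Nat.add_sub_cancel_left,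
        show p - m - (p - m - 1 - s) = s + 1 by omega, ← hb2 (p - m - 1 - s) (by omega),
        show 2 * p - (p - m - 1 - s) = p + m + (s + 1) by omega]
      ring
    have hsum : ∑ q ∈ range (2 * p), b q * REF_k w x (p + m) q =
        ∑ q ∈ range (2 * p + 1), b q * REF_k w x (p + m) q := by
      rw [Finset.sum_range_succ, hb1 (2 * p) le_rfl, zero_mul, add_zero]
    have hsplit : ∑ q ∈ range (2 * p + 1), b q * REF_k w x (p + m) q =
        ∑ q ∈ range (p + m), b q * REF_k w x (p + m) q +
          (∑ s ∈ range (p - m), b (p + m + (s + 1)) * REF_k w x (p + m) (p + m + (s + 1)) +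
            b (p + m)) := by
      rw [show 2 * p + 1 = (p + m) + ((p - m) + 1) by omega, Finset.sum_range_add,
        Finset.sum_range_succ' (fun s => b (p + m + s) * REF_k w x (p + m) (p + m + s)), add_zero,
        REF_k_le w x hx (p + m) (p + m) le_rfl, Nat.sub_self, hmom0, mul_one]
    rw [hD1, hD2, hsum, hsplit, Nat.cast_sub hm, Nat.cast_add]
    ring
  · rw [if_neg hm, add_zero, hD1, hb1 (p + m) (by omega), mul_zero, zero_add]
    have h1 : ∑ r ∈ range (p + m), b r * REF_k w x (p + m) r =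
        ∑ r ∈ range (2 * p), b r * REF_k w x (p + m) r := by
      rw [show p + m = 2 * p + (m - p) by omega, Finset.sum_range_add]
      have h2 : ∑ x_1 ∈ range (m - p), b (2 * p + x_1) *
          REF_k w x (2 * p + (m - p)) (2 * p + x_1) = 0 := by
        apply Finset.sum_eq_zero
        intro r _
        rw [hb1 (2 * p + r) (by omega), zero_mul]
      rw [h2, add_zero]
    rw [h1]

end Pool.Agent.GD
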