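import Pool.Agent.helper8.GD.Spec

/-!
# Project GD, module TR0: mean squares
-/

set_option autoImplicit false

namespace GD

open Finset ArithmeticFunction
open Pool.Agent.helper74.TG (ee gb)

theorem TR0_dvd {d n : ℕ} (hn : 1 ≤ n) (h : dv d n) : d ∣ 8 * n ^ 2 - 1 := by
  have h1 : 1 ≤ 8 * n ^ 2 := by
    have : 1 ≤ n ^ 2 := Nat.one_le_pow _ _ hn
    omega
  exact (Nat.modEq_iff_dvd' h1).mp h.symm

theorem TR0_sub {n : ℕ} (hn : 1 ≤ n) (D : Finset ℕ) (hD : ∀ l ∈ D, l.Prime) (h : dv (pr D) n) :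
    D ⊆ (8 * n ^ 2 - 1).primeFactors := by
  intro l hl
  have h1 : 1 ≤ n ^ 2 := Nat.one_le_pow _ _ hn
  rw [Nat.mem_primeFactors]
  refine ⟨hD l hl, ?_, by omega⟩
  exact (Finset.dvd_prod_of_mem (fun l => l) hl).trans (TR0_dvd hn h)

theorem TR0_sum (P : Finset ℕ) (S : Finset (Finset ℕ)) (hS : ∀ D ∈ S, D ⊆ P) (x : ℝ) (hx : 0 ≤ x) :
    ∑ D ∈ S, x ^ #D ≤ (x + 1) ^ #P := by
  have h1 : ∑ D ∈ P.powerset, x ^ #D = (x + 1) ^ #P := by
    have := Finset.sum_pow_mul_eq_add_pow x 1 P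
    simpa using this
  rw [← h1]
  refine Finset.sum_le_sum_of_subset_of_nonneg ?_ fun _ _ _ => by positivity
  intro D hD
  exact Finset.mem_powerset.mpr (hS D hD)

theorem TR0_Bt {n : ℕ} (hn : 1 ≤ n) (w s : ℕ) :
    |Bt w s n| ≤ 2 ^ (8 * n ^ 2 - 1).primeFactors.card := by
  unfold Bt
  refine (Finset.abs_sum_le_sum_abs _ _).trans ?_
  have h1 : ∀ E ∈ (Ps w).powerset.filter (fun E => #E ≤ s ∧ dv (pr E) n),
      |(-1 : ℝ) ^ #E| = 1 ^ #E := by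
    intro E _
    rw [abs_pow, abs_neg, abs_one]
  rw [Finset.sum_congr rfl h1]
  have := TR0_sum (8 * n ^ 2 - 1).primeFactors
    ((Ps w).powerset.filter (fun E => #E ≤ s ∧ dv (pr E) n)) ?_ 1 zero_le_one
  · refine this.trans (le_of_eq ?_)
    norm_num
  · intro E hE
    rw [Finset.mem_filter, Finset.mem_powerset] at hE
    refine TR0_sub hn E (fun l hl => ?_) hE.2.2
    have := hE.1 hl
    unfold Ps at this
    exact (Finset.mem_filter.mp this).2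

theorem TR0_Fv {n : ℕ} (hn : 1 ≤ n) (Q : Finset ℕ) (hQ : ∀ l ∈ Q, l.Prime) (ξ : Finset ℕ → ℝ)
    (K : ℕ) (G : ℝ) (hG : 0 ≤ G) (hξ : ∀ D ⊆ Q, |ξ D| ≤ (K : ℝ) ^ #D * G) :
    |Fv Q ξ n| ≤ ((K : ℝ) + 1) ^ (8 * n ^ 2 - 1).primeFactors.card * G := by
  unfold Fv
  refine (Finset.abs_sum_le_sum_abs _ _).trans ?_
  have h1 : ∑ D ∈ Q.powerset.filter (fun D => dv (pr D) n), |ξ D| ≤
      ∑ D ∈ Q.powerset.filter (fun D => dv (pr D) n), (K : ℝ) ^ #D * G := by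
    refine Finset.sum_le_sum fun D hD => hξ D ?_
    rw [Finset.mem_filter, Finset.mem_powerset] at hD
    exact hD.1
  refine h1.trans ?_
  rw [← Finset.sum_mul]
  refine mul_le_mul_of_nonneg_right (TR0_sum _ _ ?_ _ (Nat.cast_nonneg K)) hG
  intro D hD
  rw [Finset.mem_filter, Finset.mem_powerset] at hD
  exact TR0_sub hn D (fun l hl => hQ l (hD.1 hl)) hD.2

theorem TR0 (hKO : KO_stmt) : TR0_stmt := by
  intro K
  obtain ⟨C, X₀, h⟩ := hKO ((2 * (K + 1)) ^ 2)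
  refine ⟨C + 4 * K, max X₀ 1, ?_⟩
  intro X hX w s Q hQ ξ hξ u hu
  have hX0 : X₀ ≤ X := (le_max_left _ _).trans hX
  have hX1 : 1 ≤ X := (le_max_right _ _).trans hX
  have hL : 0 ≤ Real.log X := Real.log_natCast_nonneg X
  have hLK : 0 ≤ Real.log X ^ K := pow_nonneg hL _
  have hterm : ∀ n ∈ Icc 1 X, (u n * Bt w s n * Fv Q ξ n) ^ 2 ≤
      Real.log X ^ (4 * K) * (((2 * (K + 1)) ^ 2 : ℕ) : ℝ) ^ (8 * n ^ 2 - 1).primeFactors.card := by
    intro n hn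
    have hn1 : 1 ≤ n := (Finset.mem_Icc.mp hn).1
    set o := (8 * n ^ 2 - 1).primeFactors.card with ho
    have h1 := hu n hn
    have h2 := TR0_Bt hn1 w s
    have h3 := TR0_Fv hn1 Q hQ ξ K (Real.log X ^ K) hLK hξ
    rw [← ho] at h2 h3
    have h4 : |u n * Bt w s n * Fv Q ξ n| ≤
        Real.log X ^ K * 2 ^ o * (((K : ℝ) + 1) ^ o * Real.log X ^ K) := by
      rw [abs_mul, abs_mul]
      gcongr
    have h5 : (u n * Bt w s n * Fv Q ξ n) ^ 2 ≤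
        (Real.log X ^ K * 2 ^ o * (((K : ℝ) + 1) ^ o * Real.log X ^ K)) ^ 2 := by
      rw [← sq_abs]
      exact pow_le_pow_left₀ (abs_nonneg _) h4 2
    refine h5.trans (le_of_eq ?_)
    push_cast
    have e1 : ((2 * ((K : ℝ) + 1)) ^ 2) ^ o = ((2 : ℝ) ^ o * ((K : ℝ) + 1) ^ o) ^ 2 := by
      rw [← mul_pow, ← pow_mul, ← pow_mul, mul_comm 2 o]
    rw [e1]
    have e2 : Real.log (X : ℝ) ^ (4 * K) = (Real.log X ^ K) ^ 4 := by
      rw [← pow_mul, mul_comm]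
    rw [e2]
    ring
  refine (Finset.sum_le_sum hterm).trans ?_
  rw [← Finset.mul_sum]
  have h6 := h X hX0
  calc Real.log X ^ (4 * K) * ∑ n ∈ Icc 1 X,
        (((2 * (K + 1)) ^ 2 : ℕ) : ℝ) ^ (8 * n ^ 2 - 1).primeFactors.card
      ≤ Real.log X ^ (4 * K) * (X * Real.log X ^ C) :=
        mul_le_mul_of_nonneg_left h6 (pow_nonneg hL _)
    _ = X * Real.log X ^ (C + 4 * K) := by rw [pow_add]; ring

end GD
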